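import Pool.Agent.T9h82.SL.BForm
import Pool.Agent.T9h90.FT.Four

set_option autoImplicit false
set_option linter.unusedSectionVars false

/-!
# Witness vectors for formulas (dual adversary bound)
-/

namespace Pool.Agent.T9h82.QL

open Finset Classical
open Pool.Agent.T9h82.SL (NF)
open Pool.Agent.T9h90.FT (dg fc)

variable {X : Type}

/-- For each input there is a vector, supported on the true literals if `g` is true and on the false
literals otherwise, of square norm at most `W`; the inner products of the vectors of inputs with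
different values of `g` are 1. -/
def Wit (g : (X → Bool) → Bool) (W : ℝ) : Prop :=
  ∃ (L : Type) (_ : Fintype L) (lit : L → X × Bool) (a b : (X → Bool) → L → ℝ),
    (∀ x, g x = true → (∀ l, x (lit l).1 ≠ (lit l).2 → a x l = 0) ∧ ∑ l, a x l ^ 2 ≤ W) ∧
    (∀ y, g y = false → (∀ l, y (lit l).1 = (lit l).2 → b y l = 0) ∧ ∑ l, b y l ^ 2 ≤ W) ∧
    ∀ x y, g x = true → g y = false → ∑ l, a x l * b y l = 1

theorem Wit.lit (v : X) (b : Bool) : Wit (fun x => x v == b) 1 := by
  refine ⟨Unit, inferInstance, fun _ => (v, b), fun x _ => if x v = b then 1 else 0,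
    fun x _ => if x v = b then 0 else 1, ?_, ?_, ?_⟩
  · intro x hx
    have h : x v = b := by simpa using hx
    refine ⟨fun l hl => absurd h hl, ?_⟩
    simp [h]
  · intro y hy
    have h : ¬ y v = b := by simpa using hy
    refine ⟨fun l hl => absurd hl h, ?_⟩
    simp [h]
  · intro x y hx hy
    have h1 : x v = b := by simpa using hx
    have h2 : ¬ y v = b := by simpa using hy
    simp [h1, h2]

theorem Wit.not {g : (X → Bool) → Bool} {W : ℝ} (h : Wit g W) : Wit (fun x => !(g x)) W := by
  obtain ⟨L, i, lit, a, b, h1, h2, h3⟩ := h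
  refine ⟨L, i, fun l => ((lit l).1, !(lit l).2), b, a, ?_, ?_, ?_⟩
  · intro x hx
    have hx' : g x = false := by simpa using hx
    obtain ⟨h4, h5⟩ := h2 x hx'
    refine ⟨fun l hl => h4 l ?_, h5⟩
    have hl' : x (lit l).1 ≠ !(lit l).2 := hl
    revert hl'
    cases x (lit l).1 <;> cases (lit l).2 <;> simp
  · intro x hx
    have hx' : g x = true := by simpa using hx
    obtain ⟨h4, h5⟩ := h1 x hx'
    refine ⟨fun l hl => h4 l ?_, h5⟩
    have hl' : x (lit l).1 = !(lit l).2 := hl
    revert hl'
    cases x (lit l).1 <;> cases (lit l).2 <;> simp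
  · intro x y hx hy
    have hx' : g x = false := by simpa using hx
    have hy' : g y = true := by simpa using hy
    rw [← h3 y x hy' hx']
    exact sum_congr rfl fun l _ => mul_comm _ _

theorem Wit.and {g h : (X → Bool) → Bool} {U V : ℝ} (hU : 0 < U) (hV : 0 < V) (hg : Wit g U)
    (hh : Wit h V) : Wit (fun x => g x && h x) (Real.sqrt (U ^ 2 + V ^ 2)) := by
  obtain ⟨L, i, lit, a, b, h1, h2, h3⟩ := hg
  obtain ⟨L', i', lit', a', b', h1', h2', h3'⟩ := hh
  set W := Real.sqrt (U ^ 2 + V ^ 2) with hW
  have hW0 : 0 < W := Real.sqrt_pos.mpr (by positivity)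
  have hW2 : W ^ 2 = U ^ 2 + V ^ 2 := Real.sq_sqrt (by positivity)
  set α := Real.sqrt (U / W) with hα
  set β := Real.sqrt (V / W) with hβ
  have hα0 : 0 < α := Real.sqrt_pos.mpr (by positivity)
  have hβ0 : 0 < β := Real.sqrt_pos.mpr (by positivity)
  have hα2 : α ^ 2 = U / W := Real.sq_sqrt (by positivity)
  have hβ2 : β ^ 2 = V / W := Real.sq_sqrt (by positivity)
  refine ⟨L ⊕ L', inferInstance, Sum.elim lit lit',
    fun x => Sum.elim (fun l => α * a x l) (fun l => β * a' x l),
    fun y => if g y = false then Sum.elim (fun l => α⁻¹ * b y l) (fun _ => 0)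
      else Sum.elim (fun _ => 0) (fun l => β⁻¹ * b' y l), ?_, ?_, ?_⟩
  · intro x hx
    have hx1 : g x = true ∧ h x = true := by simpa using hx
    obtain ⟨h4, h5⟩ := h1 x hx1.1
    obtain ⟨h4', h5'⟩ := h1' x hx1.2
    refine ⟨?_, ?_⟩
    · rintro (l | l) hl
      · show α * a x l = 0
        rw [h4 l hl, mul_zero]
      · show β * a' x l = 0
        rw [h4' l hl, mul_zero]
    · rw [Fintype.sum_sum_type]
      simp only [Sum.elim_inl, Sum.elim_inr, mul_pow, ← mul_sum, hα2, hβ2]
      calc U / W * ∑ l, a x l ^ 2 + V / W * ∑ l, a' x l ^ 2 ≤ U / W * U + V / W * V :=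
            add_le_add (mul_le_mul_of_nonneg_left h5 (by positivity))
              (mul_le_mul_of_nonneg_left h5' (by positivity))
        _ = W := by
            field_simp
            linarith
  · intro y hy
    by_cases hgy : g y = false
    · obtain ⟨h4, h5⟩ := h2 y hgy
      simp only [hgy, if_true]
      refine ⟨?_, ?_⟩
      · rintro (l | l) hl
        · show α⁻¹ * b y l = 0
          rw [h4 l hl, mul_zero]
        · rfl
      · rw [Fintype.sum_sum_type]
        simp only [Sum.elim_inl, Sum.elim_inr, mul_pow, ← mul_sum, inv_pow, hα2]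
        calc (U / W)⁻¹ * ∑ l, b y l ^ 2 + ∑ l : L', (0 : ℝ) ^ 2 ≤ (U / W)⁻¹ * U + 0 := by
              apply add_le_add
              · exact mul_le_mul_of_nonneg_left h5 (by positivity)
              · simp
          _ = W := by field_simp; ring
    · have hhy : h y = false := by
        have hy' : (g y && h y) = false := hy
        revert hy' hgy
        cases g y <;> cases h y <;> simp
      obtain ⟨h4, h5⟩ := h2' y hhy
      have hgy' : g y = true := by simpa using hgy
      simp only [hgy', Bool.true_eq_false, if_false]
      refine ⟨?_, ?_⟩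
      · rintro (l | l) hl
        · rfl
        · show β⁻¹ * b' y l = 0
          rw [h4 l hl, mul_zero]
      · rw [Fintype.sum_sum_type]
        simp only [Sum.elim_inl, Sum.elim_inr, mul_pow, ← mul_sum, inv_pow, hβ2]
        calc ∑ l : L, (0 : ℝ) ^ 2 + (V / W)⁻¹ * ∑ l, b' y l ^ 2 ≤ 0 + (V / W)⁻¹ * V := by
              apply add_le_add
              · simp
              · exact mul_le_mul_of_nonneg_left h5 (by positivity)
          _ = W := by field_simp; ring
  · intro x y hx hy
    have hx1 : g x = true ∧ h x = true := by simpa using hx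
    rw [Fintype.sum_sum_type]
    by_cases hgy : g y = false
    · simp only [hgy, if_true, Sum.elim_inl, Sum.elim_inr, mul_zero, sum_const_zero, add_zero]
      rw [← h3 x y hx1.1 hgy]
      apply sum_congr rfl
      intro l _
      field_simp
    · have hhy : h y = false := by
        have hy' : (g y && h y) = false := hy
        revert hy' hgy
        cases g y <;> cases h y <;> simp
      have hgy' : g y = true := by simpa using hgy
      simp only [hgy', Bool.true_eq_false, if_false, Sum.elim_inl, Sum.elim_inr, mul_zero,
        sum_const_zero, zero_add]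
      rw [← h3' x y hx1.2 hhy]
      apply sum_congr rfl
      intro l _
      field_simp

theorem wit_formula (A : NF X) : Wit A.eval (Real.sqrt A.size) := by
  induction A with
  | lit v b =>
    have h := Wit.lit v b
    have e : Real.sqrt ((NF.lit v b : NF X).size : ℝ) = 1 := by simp [NF.size]
    rw [e]
    exact h
  | op c A B ihA ihB =>
    have hA : (0 : ℝ) < A.size := by exact_mod_cast Pool.Agent.T9h82.SL.one_le_size A
    have hB : (0 : ℝ) < B.size := by exact_mod_cast Pool.Agent.T9h82.SL.one_le_size B
    have e : Real.sqrt ((NF.op c A B).size : ℝ) =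
        Real.sqrt (Real.sqrt A.size ^ 2 + Real.sqrt B.size ^ 2) := by
      rw [Real.sq_sqrt hA.le, Real.sq_sqrt hB.le]
      simp [NF.size]
    rw [e]
    have hA' := Real.sqrt_pos.mpr hA
    have hB' := Real.sqrt_pos.mpr hB
    cases c
    · have h := (Wit.and hA' hB' ihA.not ihB.not).not
      have e2 : (fun x => !(!(A.eval x) && !(B.eval x))) = (NF.op false A B).eval := by
        funext x
        simp only [NF.eval]
        cases A.eval x <;> cases B.eval x <;> rfl
      rwa [← e2]
    · have h := Wit.and hA' hB' ihA ihB
      have e2 : (fun x => (A.eval x && B.eval x)) = (NF.op true A B).eval := by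
        funext x
        simp only [NF.eval]
        cases A.eval x <;> cases B.eval x <;> rfl
      rwa [← e2]

end Pool.Agent.T9h82.QL
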