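import Pool.Agent.T9h82.QL.Refl

set_option autoImplicit false
set_option linter.unusedSectionVars false

/-!
# Approximating polynomials of degree `O(√s)` for formulas with `s` leaves
-/

namespace Pool.Agent.T9h82.QL

open Finset Classical
open Pool.Agent.T9h82.SL (NF)
open Pool.Agent.T9h90.FT (dg fc chi fc_sum fc_smul fc_one fc_chi dg_one fc_add sg)

section dg

variable {X : Type} [Fintype X]

theorem dg_sum {ι : Type} (s : Finset ι) {f : ι → (X → Bool) → ℝ} {d : ℕ}
    (h : ∀ i ∈ s, dg (f i) d) : dg (fun x => ∑ i ∈ s, f i x) d := by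
  intro S hS
  rw [fc_sum]
  exact sum_eq_zero fun i hi => h i hi S hS

theorem dg_smul (a : ℝ) {f : (X → Bool) → ℝ} {d : ℕ} (h : dg f d) :
    dg (fun x => a * f x) d := by
  intro S hS
  rw [fc_smul, h S hS, mul_zero]

theorem dg_const (a : ℝ) (d : ℕ) : dg (fun _ : X → Bool => a) d := by
  have h := dg_smul a (dg_one (V := X) d)
  simpa using h

theorem dg_add {f g : (X → Bool) → ℝ} {d : ℕ} (hf : dg f d) (hg : dg g d) :
    dg (fun x => f x + g x) d := by
  intro S hS
  rw [fc_add, hf S hS, hg S hS, add_zero]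

theorem dg_pow {f : (X → Bool) → ℝ} {d : ℕ} (h : dg f d) (n : ℕ) :
    dg (fun x => f x ^ n) (n * d) := by
  induction n with
  | zero => simpa using dg_one (V := X) (0 * d)
  | succ n ih =>
    have h1 := ih.mul h
    have e : (n + 1) * d = n * d + d := by ring
    rw [e]
    simpa only [pow_succ] using h1

theorem dg_chi (v : X) : dg (chi ({v} : Finset X)) 1 := by
  intro S hS
  have h := fc_chi ({v} : Finset X) S
  rw [h, if_neg]
  rintro rfl
  simp at hS

theorem dg_lit (v : X) (b : Bool) :
    dg (fun x : X → Bool => if x v = b then (1 : ℝ) else -1) 1 := by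
  have e : (fun x : X → Bool => if x v = b then (1 : ℝ) else -1) =
      fun x => (if b then -1 else 1) * chi ({v} : Finset X) x := by
    funext x
    unfold chi sg
    rw [prod_singleton]
    cases x v <;> cases b <;> simp
  rw [e]
  exact dg_smul _ (dg_chi v)

end dg

/-- a polynomial of degree at most `D` approximates `g` with error at most `1 / 10` -/
def Apx {X : Type} [Fintype X] (g : (X → Bool) → Bool) (D : ℕ) : Prop :=
  ∃ P : (X → Bool) → ℝ, dg P D ∧ ∀ x, 0 ≤ P x ∧ P x ≤ 1 ∧ (g x = true → 9 / 10 ≤ P x) ∧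
    (g x = false → P x ≤ 1 / 10)

theorem apx_of_wit {X : Type} [Fintype X] {g : (X → Bool) → Bool} {W : ℝ} (hW : 1 ≤ W)
    (h : Wit g W) {m : ℕ} (hm : 110 * W ^ 2 ≤ (m : ℝ) ^ 2) : Apx g (2 * m) := by
  obtain ⟨L, iL, lit, a, b, ha, hb, hab⟩ := h
  have hm0 : 0 < (m : ℝ) := by
    have : (0 : ℝ) ≤ m := Nat.cast_nonneg _
    rcases this.lt_or_eq with h | h
    · exact h
    · rw [← h] at hm
      nlinarith
  set κ : ℝ := Real.sqrt (1 / (10 * W)) with hκ
  have hκ0 : 0 < κ := Real.sqrt_pos.mpr (by positivity)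
  have hκ2 : κ ^ 2 = 1 / (10 * W) := Real.sq_sqrt (by positivity)
  obtain ⟨e0, he0⟩ : ∃ e0 : Option L → ℝ, e0 = fun i => Option.elim i 1 (fun _ => 0) := ⟨_, rfl⟩
  obtain ⟨ψ, hψ⟩ : ∃ ψ : (X → Bool) → Option L → ℝ,
      ψ = fun y i => Option.elim i κ (fun l => -b y l) := ⟨_, rfl⟩
  obtain ⟨R, hR1, hR2, hR3⟩ := exists_refl {v | ∃ y, g y = false ∧ v = ψ y}
  obtain ⟨s, hs⟩ : ∃ s : (X → Bool) → Option L → ℝ,
      s = fun x i => Option.elim i 1 (fun l => if x (lit l).1 = (lit l).2 then 1 else -1) :=
    ⟨_, rfl⟩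
  have hs2 : ∀ x i, s x i ^ 2 = 1 := by
    intro x i
    rw [hs]
    rcases i with _ | l
    · simp
    · simp only [Option.elim]
      split <;> norm_num
  have he0n : ∑ i, e0 i * e0 i = 1 := by
    rw [Fintype.sum_option, he0]
    simp
  -- the degree
  have hdeg : ∀ j i, dg (fun x => itr R (s x) e0 j i) j := by
    intro j
    induction j with
    | zero => intro i; exact dg_const _ _
    | succ j ih =>
      intro i
      have e : (fun x => itr R (s x) e0 (j + 1) i) =
          fun x => s x i * ∑ k, R (fun k' => if k = k' then 1 else 0) i * itr R (s x) e0 j k := by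
        funext x
        show s x i * R (itr R (s x) e0 j) i = _
        rw [LinearMap.pi_apply_eq_sum_univ R]
        congr 1
        rw [Finset.sum_apply]
        exact sum_congr rfl fun k _ => by
          simp only [Pi.smul_apply, smul_eq_mul]
          ring
      rw [e]
      have h1 : dg (fun x => s x i) 1 := by
        rw [hs]
        rcases i with _ | l
        · exact dg_const _ _
        · exact dg_lit _ _
      have h2 : dg (fun x => ∑ k, R (fun k' => if k = k' then 1 else 0) i *
          itr R (s x) e0 j k) j := dg_sum _ fun k _ => dg_smul _ (ih k)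
      have h3 := h1.mul h2
      rwa [add_comm] at h3
  refine ⟨fun x => (1 / (m : ℝ) ^ 2) * ∑ i, (∑ j ∈ range m, itr R (s x) e0 j i) ^ 2, ?_,
    fun x => ⟨?_, ?_, ?_, ?_⟩⟩
  · apply dg_smul
    apply dg_sum
    intro i _
    apply dg_pow
    apply dg_sum
    intro j hj
    exact (hdeg j i).mono (mem_range.mp hj).le
  · positivity
  · -- at most one
    rw [one_div, inv_mul_le_iff₀ (by positivity), mul_one]
    calc ∑ i, (∑ j ∈ range m, itr R (s x) e0 j i) ^ 2
        ≤ ∑ i, (m : ℝ) * ∑ j ∈ range m, itr R (s x) e0 j i ^ 2 := by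
          apply sum_le_sum
          intro i _
          have := sq_sum_le_card_mul_sum_sq (s := range m) (f := fun j => itr R (s x) e0 j i)
          rwa [card_range] at this
      _ = (m : ℝ) * ∑ j ∈ range m, ∑ i, itr R (s x) e0 j i * itr R (s x) e0 j i := by
          rw [← mul_sum, sum_comm]
          congr 1
          exact sum_congr rfl fun j _ => sum_congr rfl fun i _ => by ring
      _ = (m : ℝ) ^ 2 := by
          rw [sum_congr rfl (fun j _ => itr_norm hR1 (hs2 x) e0 j), he0n]
          simp
          ring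
  · -- inputs with value true
    intro hx
    obtain ⟨h1, h2⟩ := ha x hx
    set u : Option L → ℝ := fun i => Option.elim i κ⁻¹ (fun l => a x l) with hu
    have hRu : R u = u := by
      apply hR3
      rintro v ⟨y, hy, rfl⟩
      rw [Fintype.sum_option, hψ]
      simp only [hu, Option.elim]
      rw [inv_mul_cancel₀ hκ0.ne']
      simp only [mul_neg, sum_neg_distrib]
      rw [hab x y hx hy]
      ring
    have hfix : stp R (s x) u = u := by
      funext i
      unfold stp
      rw [hRu, hs]
      rcases i with _ | l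
      · simp [hu]
      · simp only [hu, Option.elim]
        split_ifs with h3
        · ring
        · rw [h1 l h3]; ring
    have h3 : ∑ i, u i * ∑ j ∈ range m, itr R (s x) e0 j i = m * κ⁻¹ := by
      calc ∑ i, u i * ∑ j ∈ range m, itr R (s x) e0 j i =
          ∑ j ∈ range m, ∑ i, u i * itr R (s x) e0 j i := by
            rw [sum_comm]
            exact sum_congr rfl fun i _ => mul_sum _ _ _
        _ = ∑ j ∈ range m, ∑ i, u i * e0 i :=
            sum_congr rfl fun j _ => itr_fixed hR1 (hs2 x) hfix e0 j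
        _ = m * κ⁻¹ := by
            rw [Fintype.sum_option, he0]
            simp [hu]
    have h4 := sum_mul_sq_le_sq_mul_sq univ u (fun i => ∑ j ∈ range m, itr R (s x) e0 j i)
    rw [h3] at h4
    have h5 : ∑ i, u i ^ 2 ≤ 11 * W := by
      rw [Fintype.sum_option]
      simp only [hu, Option.elim]
      have : (κ⁻¹) ^ 2 = 10 * W := by
        rw [inv_pow, hκ2]
        field_simp
      rw [this]
      linarith
    have h6 : ((m : ℝ) * κ⁻¹) ^ 2 = (m : ℝ) ^ 2 * (10 * W) := by
      rw [mul_pow, inv_pow, hκ2]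
      field_simp
    rw [h6] at h4
    set T := ∑ i, (∑ j ∈ range m, itr R (s x) e0 j i) ^ 2 with hT
    have hT0 : 0 ≤ T := by positivity
    have h7 : (m : ℝ) ^ 2 * (10 * W) ≤ 11 * W * T :=
      h4.trans (mul_le_mul_of_nonneg_right h5 hT0)
    have h8 : (m : ℝ) ^ 2 * 10 ≤ 11 * T := by
      have h9 : W * ((m : ℝ) ^ 2 * 10) ≤ W * (11 * T) := by linarith
      exact le_of_mul_le_mul_left h9 (by linarith)
    have h10 : (0 : ℝ) < (m : ℝ) ^ 2 := by positivity
    show 9 / 10 ≤ 1 / (m : ℝ) ^ 2 * T
    rw [div_mul_eq_mul_div, one_mul, le_div_iff₀ h10]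
    linarith
  · -- inputs with value false
    intro hx
    obtain ⟨h1, h2⟩ := hb x hx
    have hRψ : R (ψ x) = -ψ x := hR2 _ ⟨x, hx, rfl⟩
    have he : e0 = (1 / (2 * κ)) • (ψ x - stp R (s x) (ψ x)) := by
      funext i
      simp only [Pi.smul_apply, Pi.sub_apply, smul_eq_mul]
      unfold stp
      rw [hRψ, hs, hψ, he0]
      rcases i with _ | l
      · simp only [Option.elim, Pi.neg_apply]
        field_simp
        ring
      · simp only [Option.elim, Pi.neg_apply]
        split_ifs with h3
        · rw [h1 l h3]; ring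
        · ring
    have h3 := fun i => sum_itr_tele (R := R) (s := s x) he m i
    have h4 : ∑ i, (∑ j ∈ range m, itr R (s x) e0 j i) ^ 2 ≤ 11 * W ^ 2 := by
      calc ∑ i, (∑ j ∈ range m, itr R (s x) e0 j i) ^ 2
          = ∑ i, (1 / (2 * κ) * (ψ x i - itr R (s x) (ψ x) m i)) ^ 2 :=
            sum_congr rfl fun i _ => by rw [h3 i]
        _ ≤ ∑ i, (1 / (2 * κ)) ^ 2 * (2 * (ψ x i * ψ x i) +
            2 * (itr R (s x) (ψ x) m i * itr R (s x) (ψ x) m i)) := by
            apply sum_le_sum
            intro i _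
            rw [mul_pow]
            apply mul_le_mul_of_nonneg_left _ (by positivity)
            nlinarith [sq_nonneg (ψ x i + itr R (s x) (ψ x) m i)]
        _ = (1 / (2 * κ)) ^ 2 * (4 * ∑ i, ψ x i * ψ x i) := by
            rw [← mul_sum, sum_add_distrib, ← mul_sum, ← mul_sum, itr_norm hR1 (hs2 x)]
            ring
        _ ≤ (1 / (2 * κ)) ^ 2 * (4 * (κ ^ 2 + W)) := by
            apply mul_le_mul_of_nonneg_left _ (by positivity)
            apply mul_le_mul_of_nonneg_left _ (by norm_num)
            rw [Fintype.sum_option, hψ]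
            simp only [Option.elim]
            have : ∑ l, -b x l * -b x l = ∑ l, b x l ^ 2 :=
              sum_congr rfl fun l _ => by ring
            rw [this]
            nlinarith
        _ = 1 + 10 * W ^ 2 := by
            rw [div_pow, mul_pow, hκ2]
            field_simp
            ring
        _ ≤ 11 * W ^ 2 := by nlinarith
    have h10 : (0 : ℝ) < (m : ℝ) ^ 2 := by positivity
    show 1 / (m : ℝ) ^ 2 * ∑ i, (∑ j ∈ range m, itr R (s x) e0 j i) ^ 2 ≤ 1 / 10
    rw [div_mul_eq_mul_div, one_mul, div_le_iff₀ h10]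
    linarith

end Pool.Agent.T9h82.QL
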