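import Pool.Agent.T9h82.QL.Maj
import Pool.Agent.T9h82.SL.BLine
import Pool.Agent.T9h90.FT.Restr

set_option autoImplicit false
set_option linter.unusedSectionVars false

/-!
# Decomposition of formulas, approximation with small error
-/

namespace Pool.Agent.T9h82.QL

open Finset Classical
open Pool.Agent.T9h82.SL
open Pool.Agent.T9h90.FT (dg fc chi dg_one)

section

variable {X : Type}

theorem Wit.mono {g : (X → Bool) → Bool} {U W : ℝ} (h : Wit g U) (hUW : U ≤ W) : Wit g W := by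
  obtain ⟨L, i, lit, a, b, h1, h2, h3⟩ := h
  exact ⟨L, i, lit, a, b, fun x hx => ⟨(h1 x hx).1, (h1 x hx).2.trans hUW⟩,
    fun x hx => ⟨(h2 x hx).1, (h2 x hx).2.trans hUW⟩, h3⟩

/-- representation of a function by formulas of size at most `8 * u` and an open part -/
def Rep (u : ℕ) (f : (X → Bool) → Bool) (ω c : ℕ) : Prop :=
  ∃ (ι κ : Type) (_ : Fintype ι) (_ : Fintype κ) (g : ι → Bool ⊕ NF X)
    (Z : (ι → Bool) → κ → Bool) (h : (κ → Bool) → Bool ⊕ NF X) (w : ℕ),
    (∀ i, sizeS (g i) ≤ 8 * u) ∧ (∀ ζ, sizeS (h ζ) ≤ w) ∧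
    (∀ x, f x = evalS x (h (Z fun i => evalS x (g i)))) ∧ Fintype.card ι ≤ 128 * c ∧
    w + u * Fintype.card κ ≤ ω

theorem rep_lit (u : ℕ) (v : X) (b : Bool) : Rep u (NF.lit v b : NF X).eval 1 0 :=
  ⟨Empty, Empty, inferInstance, inferInstance, Empty.elim, fun _ => Empty.elim,
    fun _ => Sum.inr (NF.lit v b), 1, fun i => i.elim, fun _ => le_refl _, fun _ => rfl,
    by simp, by simp⟩

theorem rep_op {u : ℕ} {f f' : (X → Bool) → Bool} {ω ω' c c' : ℕ} (b : Bool) (h : Rep u f ω c)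
    (h' : Rep u f' ω' c') : Rep u (fun x => if f x = b then f' x else !b) (ω + ω') (c + c') := by
  obtain ⟨ι, κ, i1, i2, g, Z, h, w, h1, h2, h3, h4, h5⟩ := h
  obtain ⟨ι', κ', i1', i2', g', Z', h', w', h1', h2', h3', h4', h5'⟩ := h'
  refine ⟨ι ⊕ ι', κ ⊕ κ', inferInstance, inferInstance, Sum.elim g g',
    fun y => Sum.elim (Z fun i => y (Sum.inl i)) (Z' fun i => y (Sum.inr i)),
    fun ζ => comb b (h fun k => ζ (Sum.inl k)) (h' fun k => ζ (Sum.inr k)), w + w', ?_, ?_, ?_,
    ?_, ?_⟩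
  · rintro (i | i)
    · exact h1 i
    · exact h1' i
  · intro ζ
    exact (sizeS_comb _ _ _).trans (add_le_add (h2 _) (h2' _))
  · intro x
    simp only [evalS_comb, Sum.elim_inl, Sum.elim_inr]
    rw [← h3, ← h3']
  · rw [Fintype.card_sum]
    omega
  · rw [Fintype.card_sum, mul_add]
    omega

theorem rep_close {u : ℕ} (hu : 1 ≤ u) {f : (X → Bool) → Bool} {ω c : ℕ} (h : Rep u f ω c)
    (hω : ω < 8 * u) : Rep u f u (c + 1) := by
  obtain ⟨ι, κ, i1, i2, g, Z, h, w, h1, h2, h3, h4, h5⟩ := h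
  have hκ : Fintype.card κ ≤ 7 := by
    by_contra hcon
    push Not at hcon
    have : u * 8 ≤ u * Fintype.card κ := Nat.mul_le_mul_left u hcon
    omega
  refine ⟨ι ⊕ (κ → Bool), Unit, inferInstance, inferInstance, Sum.elim g h,
    fun y _ => y (Sum.inr (Z fun i => y (Sum.inl i))), fun ζ => Sum.inl (ζ ()), 0, ?_, ?_, ?_,
    ?_, ?_⟩
  · rintro (i | ζ)
    · exact h1 i
    · have := h2 ζ
      simp only [Sum.elim_inr]
      omega
  · intro ζ
    exact le_refl _
  · intro x
    exact h3 x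
  · rw [Fintype.card_sum, Fintype.card_fun, Fintype.card_bool]
    have : 2 ^ Fintype.card κ ≤ 2 ^ 7 := Nat.pow_le_pow_right (by norm_num) hκ
    omega
  · simp

theorem exists_rep {u : ℕ} (hu : 1 ≤ u) (A : NF X) :
    ∃ ω c, Rep u A.eval ω c ∧ ω < 4 * u ∧ ω + 3 * u * c ≤ A.size := by
  induction A with
  | lit v b => exact ⟨1, 0, rep_lit u v b, by omega, by simp [NF.size]⟩
  | op b A B ihA ihB =>
    obtain ⟨ω, c, h1, h2, h3⟩ := ihA
    obtain ⟨ω', c', h1', h2', h3'⟩ := ihB
    have h4 : Rep u (NF.op b A B).eval (ω + ω') (c + c') := rep_op b h1 h1'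
    have e1 : 3 * u * (c + c') = 3 * u * c + 3 * u * c' := by ring
    have e2 : 3 * u * (c + c' + 1) = 3 * u * c + 3 * u * c' + 3 * u := by ring
    have e3 : (NF.op b A B).size = A.size + B.size := rfl
    by_cases h5 : ω + ω' < 4 * u
    · exact ⟨ω + ω', c + c', h4, h5, by rw [e1, e3]; omega⟩
    · exact ⟨u, c + c' + 1, rep_close hu h4 (by omega), by omega, by rw [e2, e3]; omega⟩

theorem exists_comp {u : ℕ} (hu : 1 ≤ u) (A : NF X) :
    ∃ (ι : Type) (_ : Fintype ι) (g : ι → Bool ⊕ NF X) (F : (ι → Bool) → Bool) (c : ℕ),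
      (∀ i, sizeS (g i) ≤ 8 * u) ∧ (∀ x, A.eval x = F fun i => evalS x (g i)) ∧
      3 * u * c ≤ A.size ∧ Fintype.card ι ≤ 128 * (c + 1) := by
  obtain ⟨ω, c, h1, h2, h3⟩ := exists_rep hu A
  obtain ⟨ι, κ, i1, i2, g, Z, h, w, g1, g2, g3, g4, g5⟩ := h1
  have hκ : Fintype.card κ ≤ 7 := by
    by_contra hcon
    push Not at hcon
    have : u * 8 ≤ u * Fintype.card κ := Nat.mul_le_mul_left u hcon
    omega
  refine ⟨ι ⊕ (κ → Bool), inferInstance, Sum.elim g h,
    fun y => y (Sum.inr (Z fun i => y (Sum.inl i))), c, ?_, ?_, by omega, ?_⟩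
  · rintro (i | ζ)
    · exact g1 i
    · have := g2 ζ
      simp only [Sum.elim_inr]
      omega
  · intro x
    exact g3 x
  · rw [Fintype.card_sum, Fintype.card_fun, Fintype.card_bool]
    have : 2 ^ Fintype.card κ ≤ 2 ^ 7 := Nat.pow_le_pow_right (by norm_num) hκ
    omega

end

section

variable {X : Type} [Fintype X]

theorem apx_const (b : Bool) (D : ℕ) : Apx (fun _ : X → Bool => b) D := by
  refine ⟨fun _ => bi b, dg_const _ _, fun x => ⟨bi_nonneg _, bi_le_one _, ?_, ?_⟩⟩
  · intro h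
    have h' : b = true := h
    rw [h']
    norm_num [bi]
  · intro h
    have h' : b = false := h
    rw [h']
    norm_num [bi]

theorem apx_evalS {v : ℕ} (hv : 1 ≤ v) (r : Bool ⊕ NF X) (hr : sizeS r ≤ 8 * v ^ 2) :
    Apx (fun x => evalS x r) (60 * v) := by
  rcases r with b | A
  · exact apx_const b _
  · have hv' : (1 : ℝ) ≤ v := by exact_mod_cast hv
    have h1 : Wit A.eval (Real.sqrt (8 * (v : ℝ) ^ 2)) := by
      refine (wit_formula A).mono (Real.sqrt_le_sqrt ?_)
      exact_mod_cast hr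
    have h2 : (1 : ℝ) ≤ Real.sqrt (8 * (v : ℝ) ^ 2) := by
      rw [Real.one_le_sqrt]
      nlinarith
    have h3 := apx_of_wit (m := 30 * v) h2 h1 (by
      rw [Real.sq_sqrt (by positivity)]
      push_cast
      nlinarith)
    have e : 2 * (30 * v) = 60 * v := by ring
    rwa [e] at h3

/-- approximation up to `ε` by a polynomial of degree at most `D` -/
def Close (f : (X → Bool) → Bool) (D : ℕ) (ε : ℝ) : Prop :=
  ∃ P : (X → Bool) → ℝ, dg P D ∧ ∀ x, |bi (f x) - P x| ≤ ε

theorem Close.mono {f : (X → Bool) → Bool} {D D' : ℕ} {ε : ℝ} (h : Close f D ε) (hD : D ≤ D') :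
    Close f D' ε := by
  obtain ⟨P, h1, h2⟩ := h
  exact ⟨P, h1.mono hD, h2⟩

theorem close_NF {s t : ℕ} (ht : 1 ≤ t) (hts : t ≤ s) (A : NF X) (hA : A.size ≤ s) :
    Close A.eval (216000 * Nat.sqrt (s * t)) ((1 / 2) ^ t) := by
  obtain ⟨v, hv⟩ : ∃ v, v = Nat.sqrt (s / t) := ⟨_, rfl⟩
  have hq : 1 ≤ s / t := (Nat.one_le_div_iff (by omega)).mpr hts
  have hv1 : 1 ≤ v := by
    rw [hv]
    exact Nat.le_sqrt.mpr (by simpa using hq)
  have hv2 : v * v ≤ s / t := by rw [hv]; exact Nat.sqrt_le _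
  have hv3 : s / t < (v + 1) * (v + 1) := by rw [hv]; exact Nat.lt_succ_sqrt _
  have hst1 : s / t * t ≤ s := Nat.div_mul_le_self s t
  have hst2 : s < (s / t + 1) * t := by
    have := Nat.lt_div_mul_add (a := s) (b := t) (by omega)
    nlinarith
  obtain ⟨ι, i1, g, F, c, h1, h2, h3, h4⟩ := exists_comp (u := v ^ 2) (by nlinarith) A
  have h5 : ∀ i, Apx (fun x => evalS x (g i)) (60 * v) := fun i => apx_evalS hv1 (g i) (h1 i)
  obtain ⟨P, hP1, hP2⟩ := close_comp (fun i x => evalS x (g i)) h5 F t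
  refine ⟨P, hP1.mono ?_, fun x => ?_⟩
  · -- the degree
    have h6 : 3 * c ≤ 4 * t := by
      have h7 : v ^ 2 * (3 * c) < v ^ 2 * (4 * t) + 1 := by
        have h8 : s / t + 1 ≤ 4 * v ^ 2 := by nlinarith
        have h9 : (s / t + 1) * t ≤ 4 * v ^ 2 * t := Nat.mul_le_mul_right t h8
        nlinarith
      have h8 : v ^ 2 * (3 * c) ≤ v ^ 2 * (4 * t) := by omega
      exact Nat.le_of_mul_le_mul_left h8 (by positivity)
    have h7 : 4 * Fintype.card ι + t ≤ 1200 * t := by omega
    have h8 : v * t ≤ Nat.sqrt (s * t) := by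
      rw [Nat.le_sqrt]
      calc v * t * (v * t) = (v * v) * t * t := by ring
        _ ≤ (s / t) * t * t := by
            apply Nat.mul_le_mul_right
            exact Nat.mul_le_mul_right t hv2
        _ ≤ s * t := Nat.mul_le_mul_right t hst1
    calc 3 * (60 * v) * (4 * Fintype.card ι + t) ≤ 3 * (60 * v) * (1200 * t) :=
          Nat.mul_le_mul_left _ h7
      _ = 216000 * (v * t) := by ring
      _ ≤ _ := Nat.mul_le_mul_left _ h8
  · show |bi (A.eval x) - P x| ≤ _
    rw [h2 x]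
    exact hP2 x

theorem bi_lit (a b : Bool) : bi (a == b) = 1 / 2 + 1 / 2 * (if a = b then (1 : ℝ) else -1) := by
  cases a <;> cases b <;> norm_num [bi]

theorem bi_or (a b : Bool) :
    bi (if a = false then b else !false) = 1 - (1 - bi a) * (1 - bi b) := by
  cases a <;> cases b <;> norm_num [bi]

theorem bi_and (a b : Bool) : bi (if a = true then b else !true) = bi a * bi b := by
  cases a <;> cases b <;> norm_num [bi]

theorem exact_NF (A : NF X) : ∃ P : (X → Bool) → ℝ, dg P A.size ∧ ∀ x, bi (A.eval x) = P x := by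
  induction A with
  | lit v b =>
    refine ⟨fun x => 1 / 2 + 1 / 2 * (if x v = b then (1 : ℝ) else -1), ?_, fun x => ?_⟩
    · exact dg_add (dg_const _ _) (dg_smul _ (dg_lit v b))
    · exact bi_lit (x v) b
  | op c A B ihA ihB =>
    obtain ⟨P, h1, h2⟩ := ihA
    obtain ⟨Q, h3, h4⟩ := ihB
    rcases c with _ | _
    · refine ⟨fun x => 1 - (1 - P x) * (1 - Q x), ?_, fun x => ?_⟩
      · have h5 := ((dg_one (V := X) A.size).sub h1).mul ((dg_one (V := X) B.size).sub h3)
        exact (dg_one (V := X) _).sub h5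
      · show _ = 1 - (1 - P x) * (1 - Q x)
        rw [← h2, ← h4]
        exact bi_or _ _
    · refine ⟨fun x => P x * Q x, h1.mul h3, fun x => ?_⟩
      show _ = P x * Q x
      rw [← h2, ← h4]
      exact bi_and _ _

/-- **Approximation of formulas**: degree `O(√(s t))` for error `2 ^ (-t)`. -/
theorem close_evalS {s t : ℕ} (ht : 1 ≤ t) (r : Bool ⊕ NF X) (hr : sizeS r ≤ s) :
    Close (fun x => evalS x r) (216000 * Nat.sqrt (s * t)) ((1 / 2) ^ t) := by
  rcases r with b | A
  · exact ⟨fun _ => bi b, dg_const _ _, fun x => by simp [evalS]⟩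
  · by_cases hts : t ≤ s
    · exact close_NF ht hts A hr
    · obtain ⟨P, h1, h2⟩ := exact_NF A
      have h3 : s ≤ Nat.sqrt (s * t) := Nat.le_sqrt.mpr (Nat.mul_le_mul_left s (by omega))
      have h4 : A.size ≤ s := hr
      refine ⟨P, h1.mono (by omega), fun x => ?_⟩
      show |bi (A.eval x) - P x| ≤ _
      rw [h2 x, sub_self, abs_zero]
      positivity

theorem dg_ite {P Q : (X → Bool) → ℝ} {d : ℕ} (hP : dg P d) (hQ : dg Q d) (v : X) :
    dg (fun x => if x v = true then P x else Q x) (d + 1) := by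
  have e : (fun x : X → Bool => if x v = true then P x else Q x) = fun x =>
      (1 / 2 : ℝ) * (P x + Q x) + (1 / 2) * ((if x v = true then (1 : ℝ) else -1) *
        (P x - Q x)) := by
    funext x
    split_ifs <;> ring
  rw [e]
  apply dg_add
  · exact dg_smul _ ((dg_add hP hQ).mono (by omega))
  · apply dg_smul
    have := (dg_lit v true).mul (hP.sub hQ)
    rwa [add_comm] at this

theorem close_tree {s D : ℕ} {ε : ℝ} (hl : ∀ r : Bool ⊕ NF X, sizeS r ≤ s →
    Close (fun x => evalS x r) D ε) (t : FT X) : ∀ d, ShF s t d →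
      Close (fun x => evF x t) (d + D) ε := by
  induction t with
  | leaf r =>
    intro d h
    exact (hl r h).mono (by omega)
  | node v t0 t1 ih0 ih1 =>
    rintro d ⟨e, rfl, h1, h2⟩
    obtain ⟨P0, a1, a2⟩ := ih0 e h1
    obtain ⟨P1, b1, b2⟩ := ih1 e h2
    refine ⟨fun x => if x v = true then P1 x else P0 x, ?_, fun x => ?_⟩
    · have h3 := dg_ite b1 a1 v
      refine h3.mono (by omega)
    · simp only [evF]
      by_cases hx : x v = true
      · rw [if_pos hx, if_pos hx]
        exact b2 x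
      · rw [if_neg hx, if_neg hx]
        exact a2 x

theorem Wt_of_close {f : (X → Bool) → Bool} {D : ℕ} {ε t : ℝ} (h : Close f D ε)
    (ht : (D : ℝ) < t) : Pool.Agent.T9h90.FT.Wt t (fun x => bi (f x)) ≤ ε ^ 2 := by
  obtain ⟨P, h1, h2⟩ := h
  unfold Pool.Agent.T9h90.FT.Wt
  calc ∑ S : Finset X, (if t ≤ (S.card : ℝ) then fc (fun x => bi (f x)) S ^ 2 else 0)
      ≤ ∑ S : Finset X, fc (fun x => bi (f x) - P x) S ^ 2 := by
        apply sum_le_sum
        intro S _
        split_ifs with hS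
        · have h3 : D < S.card := by
            have : (D : ℝ) < S.card := lt_of_lt_of_le ht hS
            exact_mod_cast this
          rw [Pool.Agent.T9h90.FT.fc_sub, h1 S h3, sub_zero]
        · exact sq_nonneg _
    _ = (∑ x, (bi (f x) - P x) * (bi (f x) - P x)) / 2 ^ Fintype.card X := by
        rw [← Pool.Agent.T9h90.FT.parseval]
        exact sum_congr rfl fun S _ => sq _
    _ ≤ (∑ _x : X → Bool, ε ^ 2) / 2 ^ Fintype.card X := by
        apply div_le_div_of_nonneg_right _ (by positivity)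
        apply sum_le_sum
        intro x _
        have h3 := h2 x
        have h4 := abs_nonneg (bi (f x) - P x)
        calc (bi (f x) - P x) * (bi (f x) - P x) = |bi (f x) - P x| ^ 2 := by
              rw [sq_abs]; ring
          _ ≤ ε ^ 2 := pow_le_pow_left₀ h4 h3 2
    _ = ε ^ 2 := by
        rw [sum_const, nsmul_eq_mul, card_univ, Fintype.card_fun, Fintype.card_bool]
        push_cast
        field_simp

end

end Pool.Agent.T9h82.QL
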