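import Pool.Agent.T9h82.QL.Low
import Pool.Agent.T9h82.SL.BUpp

set_option autoImplicit false
set_option linter.unusedSectionVars false

/-!
# Refutations with lines of less than quadratic size
-/

namespace Pool.Agent.T9h82.QL

open Finset Classical
open Pool.Agent.T9h49.RK (PForm Rule Derives Refutes Ed Inc par outd indeg num num_inj sizeL Unsat
  Uv Uv_nonempty tse mem_tse cl tse_clause tse_unsat card_Uv)
open Pool.Agent.T9h90.FT (tailW vars_tse)
open Pool.Agent.T9h82.SL

section

variable {N D q : ℕ}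

theorem vars_tsf {k : ℕ} (f : Fin (N + 1) × Fin D → Fin (N + 1)) (hq : 1 ≤ q) {A : PForm}
    (hA : A ∈ tsf k f q) : A.vars ⊆ range ((N + 1) * (D + 1) * q) := by
  intro n hn
  rw [mem_range]
  obtain ⟨v, rfl⟩ := mem_tsf.mp hA
  rcases vars_parF_sub k _ n hn with rfl | hn
  · positivity
  · obtain ⟨p, _, rfl⟩ := List.mem_map.mp hn
    rw [← card_var]
    exact num_lt p

theorem card_vars_tsf {k B : ℕ} (f : Fin (N + 1) × Fin D → Fin (N + 1))
    (hB : ∀ v, (Uv f q v).card ≤ B) {A : PForm} (hA : A ∈ tsf k f q) : A.vars.card ≤ B + 1 := by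
  obtain ⟨v, rfl⟩ := mem_tsf.mp hA
  calc (oddF k (Uv f q v)).vars.card
      ≤ (insert 0 ((Uv f q v).image num)).card := by
        apply card_le_card
        intro i hi
        rcases vars_parF_sub _ _ i hi with rfl | hi
        · exact mem_insert_self _ _
        · obtain ⟨p, hp, rfl⟩ := List.mem_map.mp hi
          exact mem_insert_of_mem (mem_image_of_mem _ (Finset.mem_toList.mp hp))
    _ ≤ ((Uv f q v).image num).card + 1 := card_insert_le _ _
    _ ≤ (Uv f q v).card + 1 := Nat.add_le_add_right card_image_le 1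
    _ ≤ B + 1 := Nat.add_le_add_right (hB v) 1

theorem card_vars_tse {B : ℕ} (f : Fin (N + 1) × Fin D → Fin (N + 1)) (hN : 1 ≤ N) (hq : 1 ≤ q)
    (hB : ∀ v, (Uv f q v).card ≤ B) {A : PForm} (hA : A ∈ tse f q) : A.vars.card ≤ B := by
  obtain ⟨v, T, _, _, rfl⟩ := mem_tse.mp hA
  calc (cl (Uv f q v) T).vars.card ≤ ((Uv f q v).image num).card := by
        apply card_le_card
        intro n hn
        obtain ⟨p, hp, rfl⟩ := (mem_vars_cl (Uv_nonempty f hq hN v)).mp hn
        exact mem_image_of_mem _ hp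
    _ ≤ (Uv f q v).card := card_image_le
    _ ≤ B := hB v

end

/-- the conjunction of a list -/
def conjL : List PForm → PForm
  | [] => .or (.var 0) (.neg (.var 0))
  | [A] => A
  | A :: B :: l => .and A (conjL (B :: l))

theorem eval_conjL (a : ℕ → Bool) : ∀ l : List PForm, l ≠ [] →
    ((conjL l).eval a = true ↔ ∀ A ∈ l, A.eval a = true)
  | [], h => absurd rfl h
  | [A], _ => by simp [conjL]
  | A :: B :: l, _ => by
      have ih := eval_conjL a (B :: l) (by simp)
      simp only [conjL, PForm.eval, Bool.and_eq_true, ih, List.mem_cons, forall_eq_or_imp]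

theorem size_conjL : ∀ l : List PForm, l ≠ [] → (conjL l).size + 1 ≤ sizeL l + l.length
  | [], h => absurd rfl h
  | [A], _ => by simp [conjL, sizeL]
  | A :: B :: l, _ => by
      have ih := size_conjL (B :: l) (by simp)
      simp only [conjL, PForm.size, sizeL, List.map_cons, List.sum_cons, List.length_cons] at ih ⊢
      omega

theorem derive_conjL (F : List PForm) : ∀ l : List PForm, l ≠ [] → (∀ A ∈ l, A ∈ F) →
    ∃ π : List PForm, Derives allRules F π ∧ conjL l ∈ π ∧ π.length ≤ 2 * l.length ∧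
      ∀ A ∈ π, A.size ≤ sizeL l + l.length
  | [], h, _ => absurd rfl h
  | [A], _, hF => ⟨[A], Derives.hyp A Derives.nil (hF A (by simp)), by simp [conjL], by simp,
      by simp [sizeL]⟩
  | A :: B :: l, _, hF => by
      obtain ⟨π, h1, h2, h3, h4⟩ := derive_conjL F (B :: l) (by simp)
        (fun C hC => hF C (List.mem_cons_of_mem _ hC))
      refine ⟨conjL (A :: B :: l) :: A :: π, ?_, by simp, ?_, ?_⟩
      · have hr : (⟨[A, conjL (B :: l)], conjL (A :: B :: l)⟩ : Rule) ∈ allRules := by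
          refine ⟨?_, by simp⟩
          intro a ha
          have ha1 := ha A (by simp)
          have ha2 := ha (conjL (B :: l)) (by simp)
          show (conjL (A :: B :: l)).eval a = true
          simp only [conjL, PForm.eval, Bool.and_eq_true]
          exact ⟨ha1, ha2⟩
        have h5 := Derives.rule (⟨[A, conjL (B :: l)], conjL (A :: B :: l)⟩ : Rule) PForm.var
          (Derives.hyp A h1 (hF A (by simp))) hr (by
            intro C hC
            rw [subst_var]
            simp only [List.mem_cons, List.not_mem_nil, or_false] at hC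
            rcases hC with rfl | rfl
            · simp
            · exact List.mem_cons_of_mem _ h2)
        rwa [subst_var] at h5
      · simp only [List.length_cons] at h3 ⊢
        omega
      · intro C hC
        have h5 := size_conjL (A :: B :: l) (by simp)
        have h6 : sizeL (A :: B :: l) = A.size + sizeL (B :: l) := by simp [sizeL]
        have h7 : (A :: B :: l).length = (B :: l).length + 1 := by simp
        rw [List.mem_cons, List.mem_cons] at hC
        rcases hC with rfl | rfl | hC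
        · omega
        · omega
        · have := h4 C hC
          omega

theorem conj_refutation (F : List PForm) (hne : F ≠ []) (hU : Unsat F) :
    ∃ π : List PForm, Refutes allRules F π ∧ π.length ≤ 2 * F.length ∧
      ∀ A ∈ π, A.size ≤ sizeL F + F.length := by
  obtain ⟨π, h1, h2, h3, h4⟩ := derive_conjL F F hne (fun A hA => hA)
  refine ⟨π, ⟨h1, conjL F, h2, fun a => ?_⟩, h3, h4⟩
  by_contra hcon
  have h5 : (conjL F).eval a = true := by simpa using hcon
  obtain ⟨A, hA, hA2⟩ := hU a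
  rw [eval_conjL a F hne] at h5
  rw [h5 A hA] at hA2
  exact absurd hA2 (by simp)

theorem two_pow_le_exp {m M : ℕ} (h : M = 33 * m) : (2 : ℝ) ^ m ≤ Real.exp M := by
  have h1 : (2 : ℝ) ≤ Real.exp 1 := by
    have := Real.exp_one_gt_d9
    linarith
  calc (2 : ℝ) ^ m ≤ (Real.exp 1) ^ m := pow_le_pow_left₀ (by norm_num) h1 m
    _ = Real.exp m := by rw [← Real.exp_nat_mul, mul_one]
    _ ≤ Real.exp M := by
        apply Real.exp_le_exp.mpr
        rw [h]
        push_cast
        have : (0 : ℝ) ≤ m := Nat.cast_nonneg _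
        linarith

theorem main : ∃ (C : ℕ) (F G : ℕ → ℕ → List PForm),
    (∀ m q : ℕ, Odd m → 3 ≤ m → 1 ≤ q →
      (∀ A ∈ F m q, A.vars ⊆ range (33 * m * q) ∧ A.vars.card ≤ C * q ∧ A.size ≤ C * q ^ 2) ∧
      (F m q).length = m ∧ Unsat (F m q) ∧
      (∀ A ∈ G m q, A.IsClause ∧ A.vars ⊆ range (33 * m * q) ∧ A.vars.card ≤ C * q) ∧
      sizeL (G m q) ≤ m * 2 ^ (C * q) ∧ Unsat (G m q) ∧
      ∃ π : List PForm, Refutes {ρ | ρ.Sound ∧ ρ.prem.length ≤ 2} (F m q) π ∧
        π.length ≤ 2 * m ∧ ∀ A ∈ π, A.size ≤ C * (m * q ^ 2)) ∧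
    ∀ r : ℕ, ∃ ε : ℝ, 0 < ε ∧ ∃ m0 : ℕ, ∀ m q : ℕ, Odd m → m0 ≤ m → 1 ≤ q →
      ∀ Φ : Set Rule, (∀ ρ ∈ Φ, ρ.Sound ∧ ρ.prem.length ≤ r) → ∀ π : List PForm,
        Refutes Φ (F m q ++ G m q) π →
        (∀ A ∈ π, (∃ d s : ℕ, (d : ℝ) ≤ ε * (m * q) ∧ (s : ℝ) ≤ ε * (m * q ^ 2) ∧
            Short s d A.eval) ∨
          tailW (33 * m * q) A (ε * (m * q)) ≤ 2 ^ (-((m : ℝ) / ε))) →
        2 ^ m ≤ π.length := by
  obtain ⟨Δ, hΔ⟩ := exists_bdd_graph
  obtain ⟨D', hD'⟩ : ∃ D' : ℕ, D' = 16 * 2 + 2 + Δ := ⟨_, rfl⟩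
  have hD1 : 34 ≤ D' := by omega
  choose f hf1 hf2 using hΔ
  set kf : ℕ → ℕ := fun q => Nat.log 2 (q * D') + 1 with hkf
  have hU0 : ∀ N q v, (Uv (f N) q v).card ≤ D' * q := by
    intro N q v
    have h1 := card_Uv (q := q) (f N) v
    have h2 := hf2 N v
    calc (Uv (f N) q v).card ≤ q * (16 * 2 + 2) + q * indeg (f N) v := h1
      _ ≤ q * (16 * 2 + 2) + q * Δ := by
          have := Nat.mul_le_mul_left q h2
          omega
      _ = D' * q := by rw [hD']; ring
  have hU : ∀ N q v, (Uv (f N) q v).card ≤ 2 ^ kf q := by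
    intro N q v
    refine (hU0 N q v).trans ?_
    rw [mul_comm]
    exact (Nat.lt_pow_succ_log_self (by norm_num) _).le
  have h4k : ∀ x : ℕ, 1 ≤ x → 4 ^ (Nat.log 2 x + 1) ≤ 4 * x ^ 2 := by
    intro x hx
    have h1 : 2 ^ Nat.log 2 x ≤ x := Nat.pow_log_le_self 2 (by omega)
    calc 4 ^ (Nat.log 2 x + 1) = 4 * (2 ^ Nat.log 2 x) ^ 2 := by
          rw [pow_succ, ← pow_mul, mul_comm (Nat.log 2 x) 2, pow_mul]
          norm_num
          ring
      _ ≤ 4 * x ^ 2 := Nat.mul_le_mul_left _ (Nat.pow_le_pow_left h1 2)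
  have hCD : D' ≤ D' ^ 2 := by nlinarith
  refine ⟨26136 * D' ^ 2, fun m q => tsf (kf q) (f (m - 1)) q, fun m q => tse (f (m - 1)) q,
    ?_, ?_⟩
  · intro m q hm hm3 hq
    obtain ⟨N, rfl⟩ : ∃ N, m = N + 1 := ⟨m - 1, by omega⟩
    have hE : Even N := by
      rw [Nat.odd_add_one] at hm
      exact Nat.not_odd_iff_even.mp hm
    have hN1 : 1 ≤ N := by omega
    have hv : (N + 1) * (16 * 2 + 1) * q = 33 * (N + 1) * q := by ring
    refine ⟨fun A hA => ⟨?_, ?_, ?_⟩, ?_, tsf_unsat _ (hU N q) hE, fun A hA => ⟨?_, ?_, ?_⟩,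
      ?_, tse_unsat (f N) hq hN1 hE, ?_⟩
    · rw [← hv]
      exact vars_tsf (f N) hq hA
    · have h1 := card_vars_tsf (f N) (hU0 N q) hA
      nlinarith
    · obtain ⟨v, rfl⟩ := mem_tsf.mp hA
      have h1 := size_parF (kf q) ((Uv (f N) q v).toList.map num)
      have h2 := h4k (q * D') (by nlinarith)
      show (parF (kf q) ((Uv (f N) q v).toList.map num)).size ≤ _
      calc (parF (kf q) ((Uv (f N) q v).toList.map num)).size ≤ 6 * 4 ^ kf q := by omega
        _ ≤ 6 * (4 * (q * D') ^ 2) := Nat.mul_le_mul_left _ h2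
        _ = 24 * D' ^ 2 * q ^ 2 := by ring
        _ ≤ 26136 * D' ^ 2 * q ^ 2 := by
            apply Nat.mul_le_mul_right
            exact Nat.mul_le_mul_right _ (by norm_num)
    · unfold tsf
      rw [List.length_map, Finset.length_toList, card_univ, Fintype.card_fin]
      rfl
    · exact tse_clause (f N) hq hN1 A hA
    · rw [← hv, ← card_var]
      exact vars_tse (f N) hq hN1 A hA
    · refine (card_vars_tse (f N) hN1 hq (hU0 N q) hA).trans ?_
      apply Nat.mul_le_mul_right
      nlinarith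
    · have h1 := tse_size (q := q) (f N) (hf2 N) hN1 hq
      rw [← hD'] at h1
      refine h1.trans ?_
      have h2 : 3 * 4 ^ (q * D') ≤ 2 ^ (26136 * D' ^ 2 * q) := by
        calc 3 * 4 ^ (q * D') ≤ 2 ^ 2 * (2 ^ 2) ^ (q * D') := by norm_num
          _ = 2 ^ (2 + 2 * (q * D')) := by rw [← pow_mul, ← pow_add]
          _ ≤ 2 ^ (26136 * D' ^ 2 * q) := by
              apply Nat.pow_le_pow_right (by norm_num)
              nlinarith [Nat.mul_le_mul_right q hCD]
      calc 3 * 4 ^ (q * D') * (N + 1) ≤ 2 ^ (26136 * D' ^ 2 * q) * (N + 1) :=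
            Nat.mul_le_mul_right _ h2
        _ = _ := by ring
    · have hlen : (tsf (kf q) (f N) q).length = N + 1 := by
        unfold tsf
        rw [List.length_map, Finset.length_toList, card_univ, Fintype.card_fin]
      have hsz : sizeL (tsf (kf q) (f N) q) ≤ 24 * D' ^ 2 * q ^ 2 * (N + 1) := by
        have h1 := tsf_size (k := kf q) (q := q) (f N)
        have h2 := h4k (q * D') (by nlinarith)
        calc sizeL (tsf (kf q) (f N) q) ≤ 6 * 4 ^ kf q * (N + 1) := h1
          _ ≤ 6 * (4 * (q * D') ^ 2) * (N + 1) :=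
              Nat.mul_le_mul_right _ (Nat.mul_le_mul_left _ h2)
          _ = _ := by ring
      obtain ⟨π, h1, h2, h3⟩ := conj_refutation (tsf (kf q) (f N) q) (by
        intro h
        rw [h] at hlen
        simp at hlen) (tsf_unsat _ (hU N q) hE)
      refine ⟨π, h1, by rw [hlen] at h2; exact h2, fun A hA => (h3 A hA).trans ?_⟩
      rw [hlen]
      calc sizeL (tsf (kf q) (f N) q) + (N + 1)
          ≤ 24 * D' ^ 2 * q ^ 2 * (N + 1) + (D' ^ 2 * q ^ 2) * (N + 1) := by
            apply Nat.add_le_add hsz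
            have : 1 ≤ D' ^ 2 * q ^ 2 := Nat.one_le_iff_ne_zero.mpr (by positivity)
            exact Nat.le_mul_of_pos_left _ this
        _ = 25 * (D' ^ 2 * ((N + 1) * q ^ 2)) := by ring
        _ ≤ 26136 * (D' ^ 2 * ((N + 1) * q ^ 2)) := Nat.mul_le_mul_right _ (by norm_num)
        _ = _ := by ring
  · intro r
    obtain ⟨c, hc0, hc1, N0, hlow⟩ := low r Δ
    refine ⟨c / 2, by positivity, N0 + 3, ?_⟩
    intro m q hm hm0 hq Φ hΦ π hπ hl
    obtain ⟨N, rfl⟩ : ∃ N, m = N + 1 := ⟨m - 1, by omega⟩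
    have hN1 : 1 ≤ N := by omega
    have hqR : (1 : ℝ) ≤ q := by exact_mod_cast hq
    have hcast : (((33 * (N + 1) : ℕ)) : ℝ) = 33 * ((N + 1 : ℕ) : ℝ) := by push_cast; ring
    have hm0' : (0 : ℝ) < ((N + 1 : ℕ) : ℝ) := by positivity
    set mR : ℝ := ((N + 1 : ℕ) : ℝ) with hmR
    obtain ⟨s0, hs0⟩ : ∃ s0 : ℕ, s0 = ⌊c / 2 * (mR * (q : ℝ) ^ 2)⌋₊ := ⟨_, rfl⟩
    obtain ⟨d0, hd0⟩ : ∃ d0 : ℕ, d0 = ⌊c / 2 * (mR * (q : ℝ))⌋₊ := ⟨_, rfl⟩
    have hs0' : (s0 : ℝ) ≤ c / 2 * (mR * (q : ℝ) ^ 2) := by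
      rw [hs0]
      exact Nat.floor_le (by positivity)
    have hd0' : (d0 : ℝ) ≤ c / 2 * (mR * (q : ℝ)) := by
      rw [hd0]
      exact Nat.floor_le (by positivity)
    have h2 := hlow N (33 * (N + 1)) q s0 d0 (by omega) rfl hq
      (by
        rw [hcast]
        refine hs0'.trans ?_
        have : 0 ≤ c * (mR * (q : ℝ) ^ 2) := by positivity
        nlinarith)
      (by
        rw [hcast]
        refine hd0'.trans ?_
        have : 0 ≤ c * (mR * (q : ℝ)) := by positivity
        nlinarith)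
      (f N) (hf1 N) (hf2 N) (tsf (kf q) (f N) q ++ tse (f N) q)
      (by
        intro A hA
        rcases List.mem_append.mp hA with h | h
        · exact tsf_hF (f N) (hU N q) A h
        · exact tse_hF (f N) hN1 hq A h) Φ hΦ π hπ
      (by
        intro A hA
        rcases hl A hA with ⟨d, s, h3, h4, h5⟩ | h3
        · right
          refine h5.mono ?_ ?_
          · rw [hs0]; exact Nat.le_floor h4
          · rw [hd0]; exact Nat.le_floor h3
        · left
          rw [hcast]
          have h4 : tailW (33 * (N + 1) * q) A (c * (33 * mR * q)) ≤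
              tailW (33 * (N + 1) * q) A (c / 2 * (mR * q)) := by
            unfold tailW
            apply sum_le_sum
            intro S _
            split_ifs with h5 h6
            · exact le_refl _
            · exfalso
              apply h6
              refine le_trans ?_ h5
              have : 0 ≤ c * (mR * (q : ℝ)) := by positivity
              nlinarith
            · positivity
            · exact le_refl _
          refine h4.trans (h3.trans ?_)
          rw [Real.rpow_def_of_pos (by norm_num)]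
          apply Real.exp_le_exp.mpr
          have h5 := Real.log_two_gt_d9
          have h6 : 200 * mR ≤ mR / (c / 2) := by
            rw [le_div_iff₀ (by positivity)]
            nlinarith
          nlinarith)
    have h3 := two_pow_le_exp (m := N + 1) (M := 33 * (N + 1)) rfl
    have h4 := h3.trans h2
    exact_mod_cast h4

end Pool.Agent.T9h82.QL
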