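import Pool.Agent.T9h82.QL.Dec
import Pool.Agent.T9h82.SL.BGraph
import Pool.Agent.T9h90.FT.Main

set_option autoImplicit false
set_option linter.unusedSectionVars false

/-!
# The lower bound
-/

namespace Pool.Agent.T9h82.QL

open Finset Classical
open Pool.Agent.T9h49.RK (PForm Rule Derives Refutes Ed Inc par outd indeg num num_inj sizeL Unsat
  pull ev_pull eval_subst SemDer connected outd_le bd Fm)
open Pool.Agent.T9h90.FT (Wt bf tailW Wt_pull Wt_mono dl kill card_star Exp)
open Pool.Agent.T9h82.SL (Short ShF mixa)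

section

variable {N D q : ℕ}

theorem semDerF (f : Fin (N + 1) × Fin D → Fin (N + 1)) {F : List PForm}
    (hF : ∀ A ∈ F, ∃ v, ∀ x : Ed N D × Fin q → Bool, par (Inc f) v x = 1 →
      A.eval (T9h49.RK.ext x) = true)
    {Φ : Set Rule} {r : ℕ} (hΦ : ∀ ρ ∈ Φ, ρ.Sound ∧ ρ.prem.length ≤ r) {π : List PForm}
    (h : Derives Φ F π) :
    SemDer (q := q) (Inc f) r (π.map pull) := by
  induction h with
  | nil => exact .nil
  | hyp A _ hA ih =>
    obtain ⟨v, hv⟩ := hF A hA
    refine .ax v (fun x hx => ?_) ih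
    rw [ev_pull]
    exact hv x hx
  | rule ρ σ _ hρ hprem ih =>
    refine .inf ((ρ.prem.map (PForm.subst σ)).map pull) ?_ ?_ ?_ ih
    · simpa using (hΦ ρ hρ).2
    · intro B hB
      rw [List.map_map] at hB
      obtain ⟨A, hA, rfl⟩ := List.mem_map.mp hB
      exact List.mem_map_of_mem (hprem A hA)
    · intro x hx
      rw [ev_pull, eval_subst]
      refine (hΦ ρ hρ).1 _ fun A hA => ?_
      rw [← eval_subst, ← ev_pull]
      refine hx _ ?_
      rw [List.map_map]
      exact List.mem_map_of_mem (f := pull ∘ PForm.subst σ) hA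

theorem exp_half (hN : 3 ≤ N) (f : Fin (N + 1) × Fin D → Fin (N + 1))
    (hf : ∀ A : Finset (Fin (N + 1)), N + 1 < 4 * A.card → 2 * A.card ≤ N + 1 →
      N + 1 ≤ 2 * outd f A) : Exp (Inc f) (N / 2) where
  conn A h1 h2 := connected f A h1 h2
  med A h1 h2 := by
    rw [Fintype.card_fin] at h1 h2
    have h3 := hf A h1 h2
    have h4 := outd_le f A
    omega
  four := by
    rw [Fintype.card_fin]
    omega

/-- the tail of a short line -/
theorem Wt_short {P : Type} [Fintype P] {s d t : ℕ} (ht : 1 ≤ t) (A : PForm)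
    (h : Short s d A.eval) {lam : ℝ}
    (hl : ((d + 216000 * Nat.sqrt (s * t) : ℕ) : ℝ) < lam) :
    Wt lam (bf (pull A : Fm P)) ≤ (1 / 4) ^ t := by
  obtain ⟨T, _, h2, h3⟩ := h.toFT (univ : Finset P) (fun _ => false)
  have h4 := close_tree (fun r hr => close_evalS (X := P) ht r hr) T d h2
  have h5 := Wt_of_close h4 hl
  have e : (fun x : P → Bool => bi (Pool.Agent.T9h82.SL.evF x T)) = bf (pull A : Fm P) := by
    funext x
    rw [h3]
    have e2 : mixa univ (fun _ => false) x = x := by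
      funext z
      simp [mixa]
    rw [e2]
    unfold bf bi
    rw [ev_pull]
  rw [e] at h5
  refine h5.trans (le_of_eq ?_)
  rw [← pow_mul, mul_comm, pow_mul]
  norm_num

end

theorem quarter_le (t : ℕ) : ((1 : ℝ) / 4) ^ t ≤ Real.exp (-(t : ℝ)) := by
  have h1 : (1 : ℝ) / 4 ≤ Real.exp (-1) := by
    have h2 := Real.exp_one_lt_d9
    rw [Real.exp_neg, one_div]
    exact inv_anti₀ (Real.exp_pos 1) (by linarith)
  calc ((1 : ℝ) / 4) ^ t ≤ (Real.exp (-1)) ^ t := pow_le_pow_left₀ (by norm_num) h1 t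
    _ = Real.exp (-(t : ℝ)) := by rw [← Real.exp_nat_mul]; ring_nf

theorem low (r Δ : ℕ) : ∃ c : ℝ, 0 < c ∧ c ≤ 1 / 100 ∧ ∃ N0 : ℕ, ∀ N M q s d : ℕ, N0 ≤ N →
    M = 33 * (N + 1) → 0 < q → (s : ℝ) ≤ c * M * q ^ 2 → (d : ℝ) ≤ c * (M * q) →
    ∀ f : Fin (N + 1) × Fin (16 * 2) → Fin (N + 1),
      (∀ A : Finset (Fin (N + 1)), N + 1 < 4 * A.card → 2 * A.card ≤ N + 1 →
        N + 1 ≤ 2 * outd f A) → (∀ v, indeg f v ≤ Δ) → ∀ F : List PForm,
      (∀ A ∈ F, ∃ v, ∀ x : Ed N (16 * 2) × Fin q → Bool, par (Inc f) v x = 1 →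
        A.eval (T9h49.RK.ext x) = true) →
      ∀ Φ : Set Rule, (∀ ρ ∈ Φ, ρ.Sound ∧ ρ.prem.length ≤ r) → ∀ π : List PForm,
        Refutes Φ F π →
        (∀ A ∈ π, tailW (M * q) A (c * (M * q)) ≤ Real.exp (-3 * M) ∨ Short s d A.eval) →
        Real.exp M ≤ π.length := by
  set a : ℝ := 5280 * ((r : ℝ) + 1) with ha
  have ha0 : 0 ≤ a := by rw [ha]; positivity
  obtain ⟨c, hc⟩ : ∃ c : ℝ, c = Real.exp (-a) ^ 2 / 10 ^ 13 := ⟨_, rfl⟩
  have hE0 := Real.exp_pos (-a)
  have hE1 : Real.exp (-a) ≤ 1 := Real.exp_le_one_iff.mpr (by linarith)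
  have hc0 : 0 < c := by rw [hc]; positivity
  have hcE : c ≤ Real.exp (-a) / 10 ^ 13 := by
    rw [hc]
    apply div_le_div_of_nonneg_right _ (by positivity)
    nlinarith
  have hc1 : c ≤ 1 / 100 := by
    refine hcE.trans ?_
    calc Real.exp (-a) / 10 ^ 13 ≤ 1 / 10 ^ 13 := div_le_div_of_nonneg_right hE1 (by positivity)
      _ ≤ 1 / 100 := by norm_num
  refine ⟨c, hc0, hc1, 8 * (r + 1) + 4 * (Δ + 40), ?_⟩
  intro N M q s d hN hM hq hs hd f hf1 hf2 F hF Φ hΦ π hπ hlines
  have hcard : Fintype.card (Ed N (16 * 2)) = M := by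
    rw [Fintype.card_sum, Fintype.card_prod, Fintype.card_fin, Fintype.card_fin, hM]
    ring
  have hcard2 : Fintype.card (Ed N (16 * 2) × Fin q) = M * q := by
    rw [Fintype.card_prod, hcard, Fintype.card_fin]
  obtain ⟨d0, hd0⟩ : ∃ d0 : ℕ, d0 = N / (4 * (r + 1)) := ⟨_, rfl⟩
  have hd1 : d0 * (4 * (r + 1)) ≤ N := by rw [hd0]; exact Nat.div_mul_le_self _ _
  have hd2 : N < d0 * (4 * (r + 1)) + 4 * (r + 1) := by
    rw [hd0]
    exact Nat.lt_div_mul_add (by omega)
  have hMR : (M : ℝ) = 33 * ((N : ℝ) + 1) := by rw [hM]; push_cast; ring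
  have hM0 : (0 : ℝ) < M := by rw [hMR]; positivity
  have hqR : (1 : ℝ) ≤ q := by exact_mod_cast hq
  have hkill := kill (Inc f) (N / 2) r d0 (exp_half (by omega) f hf1)
    (by
      have e : 2 * ((r + 1) * d0) * 2 = d0 * (4 * (r + 1)) := by ring
      omega)
    (by
      intro v
      have h1 := card_star f v
      have h2 := hf2 v
      have h3 : d0 * 4 ≤ N := by nlinarith
      omega) hq a ha0
    (by
      rw [hcard, hMR, ha]
      have h1 : (N : ℝ) < d0 * (4 * ((r : ℝ) + 1)) + 4 * (r + 1) := by exact_mod_cast hd2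
      have h2 : 8 * ((r : ℝ) + 1) + 4 * ((Δ : ℝ) + 40) ≤ N := by exact_mod_cast hN
      have h3 : (0 : ℝ) ≤ Δ := Nat.cast_nonneg _
      have h4 : (0 : ℝ) ≤ r := Nat.cast_nonneg _
      nlinarith)
    (by rw [hcard]; omega)
    (π.map pull) (semDerF f hF hΦ hπ.1)
    (by
      obtain ⟨A, hA, hfalse⟩ := hπ.2
      exact ⟨pull A, List.mem_map_of_mem hA, fun x => by rw [ev_pull]; exact hfalse _⟩)
    (by
      intro B hB
      obtain ⟨A, hA, rfl⟩ := List.mem_map.mp hB
      rw [hcard]
      rcases hlines A hA with h | h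
      · have h1 : Wt (Real.exp (-a) * (q * M)) (bf (pull A : Fm (Ed N (16 * 2) × Fin q)))
            ≤ tailW (M * q) A (c * (M * q)) := by
          rw [← hcard2, ← Wt_pull]
          apply Wt_mono
          have h2 : c ≤ Real.exp (-a) := by
            refine hcE.trans ?_
            rw [div_le_iff₀ (by positivity)]
            nlinarith
          calc c * (M * q) ≤ Real.exp (-a) * (M * q) :=
                mul_le_mul_of_nonneg_right h2 (by positivity)
            _ = _ := by ring
        exact h1.trans h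
      · have h1 := Wt_short (P := Ed N (16 * 2) × Fin q) (t := 3 * M) (by omega) A h
          (lam := Real.exp (-a) * (q * M)) (by
            have h2 : ((Nat.sqrt (s * (3 * M)) : ℕ) : ℝ) ≤ Real.exp (-a) * (q * M) / 864000 := by
              have h3 : ((Nat.sqrt (s * (3 * M)) : ℕ) : ℝ) ^ 2 ≤ s * (3 * M) := by
                have := Nat.sqrt_le' (s * (3 * M))
                exact_mod_cast this
              apply le_of_sq_le_sq _ (by positivity)
              refine h3.trans ?_
              calc (s : ℝ) * (3 * M) ≤ (c * M * q ^ 2) * (3 * M) :=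
                    mul_le_mul_of_nonneg_right hs (by positivity)
                _ = Real.exp (-a) ^ 2 * (q * M) ^ 2 * (3 / 10 ^ 13) := by rw [hc]; ring
                _ ≤ Real.exp (-a) ^ 2 * (q * M) ^ 2 * (1 / 864000 ^ 2) :=
                    mul_le_mul_of_nonneg_left (by norm_num) (by positivity)
                _ = _ := by ring
            have h4 : (d : ℝ) ≤ Real.exp (-a) * (q * M) / 10 ^ 13 := by
              refine hd.trans ?_
              calc c * (M * q) ≤ Real.exp (-a) / 10 ^ 13 * (M * q) :=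
                    mul_le_mul_of_nonneg_right hcE (by positivity)
                _ = _ := by ring
            have h5 : 0 < Real.exp (-a) * (q * M) := by positivity
            push_cast
            linarith)
        refine h1.trans ((quarter_le _).trans ?_)
        apply Real.exp_le_exp.mpr
        push_cast
        linarith)
  rw [hcard, List.length_map] at hkill
  exact hkill

end Pool.Agent.T9h82.QL
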