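import Pool.Agent.T9h82.QL.Apx

set_option autoImplicit false
set_option linter.unusedSectionVars false

/-!
# Robust composition of polynomials
-/

namespace Pool.Agent.T9h82.QL

open Finset Classical
open Pool.Agent.T9h90.FT (dg fc chi fc_sum fc_smul fc_one fc_chi dg_one fc_add sg)

/-- the value of a bit -/
def bi (b : Bool) : ℝ := if b then 1 else 0

theorem bi_nonneg (b : Bool) : 0 ≤ bi b := by cases b <;> simp [bi]

theorem bi_le_one (b : Bool) : bi b ≤ 1 := by cases b <;> simp [bi]

/-- majority of `n` independent bits of expectation `p` -/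
noncomputable def maj (n : ℕ) (p : ℝ) : ℝ :=
  ∑ k ∈ (range (n + 1)).filter (fun k => n < 2 * k), p ^ k * (1 - p) ^ (n - k) * (n.choose k : ℝ)

theorem maj_compl (n : ℕ) (p : ℝ) : maj n p +
    ∑ k ∈ (range (n + 1)).filter (fun k => ¬ n < 2 * k),
      p ^ k * (1 - p) ^ (n - k) * (n.choose k : ℝ) = 1 := by
  unfold maj
  rw [sum_filter_add_sum_filter_not, ← add_pow]
  simp

theorem maj_nonneg {n : ℕ} {p : ℝ} (h0 : 0 ≤ p) (h1 : p ≤ 1) : 0 ≤ maj n p := by
  unfold maj
  apply sum_nonneg
  intro k _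
  have : 0 ≤ 1 - p := by linarith
  positivity

theorem maj_le_one {n : ℕ} {p : ℝ} (h0 : 0 ≤ p) (h1 : p ≤ 1) : maj n p ≤ 1 := by
  have h := maj_compl n p
  have h2 : 0 ≤ ∑ k ∈ (range (n + 1)).filter (fun k => ¬ n < 2 * k),
      p ^ k * (1 - p) ^ (n - k) * (n.choose k : ℝ) := by
    apply sum_nonneg
    intro k _
    have : 0 ≤ 1 - p := by linarith
    positivity
  linarith

theorem nine_pow {n k : ℕ} (h : n ≤ 2 * k) : (3 : ℝ) ^ n ≤ 9 ^ k := by
  have e : (9 : ℝ) ^ k = 3 ^ (2 * k) := by rw [pow_mul]; norm_num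
  rw [e]
  exact pow_le_pow_right₀ (by norm_num) h

theorem maj_small {n : ℕ} {p : ℝ} (h0 : 0 ≤ p) (h1 : p ≤ 1 / 10) : maj n p ≤ (3 / 5) ^ n := by
  have hp : 0 ≤ 1 - p := by linarith
  have h2 : (3 : ℝ) ^ n * maj n p ≤ (9 * p + (1 - p)) ^ n := by
    rw [add_pow]
    unfold maj
    rw [mul_sum]
    calc ∑ k ∈ (range (n + 1)).filter (fun k => n < 2 * k),
          (3 : ℝ) ^ n * (p ^ k * (1 - p) ^ (n - k) * (n.choose k : ℝ))
        ≤ ∑ k ∈ (range (n + 1)).filter (fun k => n < 2 * k),
          (9 * p) ^ k * (1 - p) ^ (n - k) * (n.choose k : ℝ) := by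
          apply sum_le_sum
          intro k hk
          have hk2 : n < 2 * k := (mem_filter.mp hk).2
          rw [mul_pow]
          have h3 := nine_pow hk2.le
          have h4 : 0 ≤ p ^ k * (1 - p) ^ (n - k) * (n.choose k : ℝ) := by positivity
          calc (3 : ℝ) ^ n * (p ^ k * (1 - p) ^ (n - k) * (n.choose k : ℝ)) ≤
              9 ^ k * (p ^ k * (1 - p) ^ (n - k) * (n.choose k : ℝ)) :=
                mul_le_mul_of_nonneg_right h3 h4
            _ = _ := by ring
      _ ≤ ∑ k ∈ range (n + 1), (9 * p) ^ k * (1 - p) ^ (n - k) * (n.choose k : ℝ) := by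
          apply sum_le_sum_of_subset_of_nonneg (filter_subset _ _)
          intro k _ _
          positivity
  have h3 : (9 * p + (1 - p)) ^ n ≤ (9 / 5 : ℝ) ^ n :=
    pow_le_pow_left₀ (by linarith) (by linarith) n
  have h4 : (9 / 5 : ℝ) ^ n = 3 ^ n * (3 / 5) ^ n := by
    rw [← mul_pow]
    norm_num
  have h5 : (0 : ℝ) < 3 ^ n := by positivity
  have h6 := h2.trans h3
  rw [h4] at h6
  exact le_of_mul_le_mul_left h6 h5

theorem maj_large {n : ℕ} {p : ℝ} (h0 : p ≤ 1) (h1 : 9 / 10 ≤ p) :
    1 - maj n p ≤ (3 / 5) ^ n := by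
  have hp : 0 ≤ 1 - p := by linarith
  have hp0 : 0 ≤ p := by linarith
  have h2 : (3 : ℝ) ^ n * (1 - maj n p) ≤ (p + 9 * (1 - p)) ^ n := by
    have h := maj_compl n p
    have h' : 1 - maj n p = ∑ k ∈ (range (n + 1)).filter (fun k => ¬ n < 2 * k),
      p ^ k * (1 - p) ^ (n - k) * (n.choose k : ℝ) := by linarith
    rw [h', add_pow, mul_sum]
    calc ∑ k ∈ (range (n + 1)).filter (fun k => ¬ n < 2 * k),
          (3 : ℝ) ^ n * (p ^ k * (1 - p) ^ (n - k) * (n.choose k : ℝ))
        ≤ ∑ k ∈ (range (n + 1)).filter (fun k => ¬ n < 2 * k),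
          p ^ k * (9 * (1 - p)) ^ (n - k) * (n.choose k : ℝ) := by
          apply sum_le_sum
          intro k hk
          have hk1 := mem_range.mp (mem_filter.mp hk).1
          have hk2 : ¬ n < 2 * k := (mem_filter.mp hk).2
          rw [mul_pow]
          have h3 : (3 : ℝ) ^ n ≤ 9 ^ (n - k) := nine_pow (by omega)
          have h4 : 0 ≤ p ^ k * (1 - p) ^ (n - k) * (n.choose k : ℝ) := by positivity
          calc (3 : ℝ) ^ n * (p ^ k * (1 - p) ^ (n - k) * (n.choose k : ℝ)) ≤
              9 ^ (n - k) * (p ^ k * (1 - p) ^ (n - k) * (n.choose k : ℝ)) :=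
                mul_le_mul_of_nonneg_right h3 h4
            _ = _ := by ring
      _ ≤ ∑ k ∈ range (n + 1), p ^ k * (9 * (1 - p)) ^ (n - k) * (n.choose k : ℝ) := by
          apply sum_le_sum_of_subset_of_nonneg (filter_subset _ _)
          intro k _ _
          positivity
  have h3 : (p + 9 * (1 - p)) ^ n ≤ (9 / 5 : ℝ) ^ n :=
    pow_le_pow_left₀ (by linarith) (by linarith) n
  have h4 : (9 / 5 : ℝ) ^ n = 3 ^ n * (3 / 5) ^ n := by
    rw [← mul_pow]
    norm_num
  have h5 : (0 : ℝ) < 3 ^ n := by positivity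
  have h6 := h2.trans h3
  rw [h4] at h6
  exact le_of_mul_le_mul_left h6 h5

section

variable {X : Type} [Fintype X]

theorem dg_maj {P : (X → Bool) → ℝ} {D : ℕ} (h : dg P D) (n : ℕ) :
    dg (fun x => maj n (P x)) (n * D) := by
  unfold maj
  apply dg_sum
  intro k hk
  have hk1 := mem_range.mp (mem_filter.mp hk).1
  have h1 : dg (fun x => P x ^ k * (1 - P x) ^ (n - k)) (n * D) := by
    have h2 := (dg_pow h k).mul (dg_pow ((dg_one (V := X) D).sub h) (n - k))
    have e : k * D + (n - k) * D = n * D := by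
      rw [← add_mul]
      congr 1
      omega
    rwa [e] at h2
  have h3 := dg_smul (n.choose k : ℝ) h1
  have e : (fun x => P x ^ k * (1 - P x) ^ (n - k) * (n.choose k : ℝ)) =
      fun x => (n.choose k : ℝ) * (P x ^ k * (1 - P x) ^ (n - k)) := by
    funext x
    ring
  rw [e]
  exact h3

theorem exists_q {g : (X → Bool) → Bool} {D : ℕ} (h : Apx g D) :
    ∃ q : ℕ → (X → Bool) → ℝ, (∀ k, dg (q k) (3 * (k + 1) * D)) ∧
      (∀ k x, |bi (g x) - q k x| ≤ (1 / 4) ^ (k + 1)) ∧ ∀ k x, 0 ≤ q k x ∧ q k x ≤ 1 := by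
  obtain ⟨P, hP, hP1⟩ := h
  have hq : ∀ k : ℕ, ((3 : ℝ) / 5) ^ (3 * (k + 1)) ≤ (1 / 4) ^ (k + 1) := by
    intro k
    rw [pow_mul]
    exact pow_le_pow_left₀ (by norm_num) (by norm_num) _
  refine ⟨fun k x => maj (3 * (k + 1)) (P x), fun k => dg_maj hP _, fun k x => ?_,
    fun k x => ⟨maj_nonneg (hP1 x).1 (hP1 x).2.1, maj_le_one (hP1 x).1 (hP1 x).2.1⟩⟩
  obtain ⟨h0, h1, h2, h3⟩ := hP1 x
  have h4 := maj_nonneg (n := 3 * (k + 1)) h0 h1
  have h5 := maj_le_one (n := 3 * (k + 1)) h0 h1
  rcases hg : g x with _ | _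
  · have h6 := maj_small (n := 3 * (k + 1)) h0 (h3 hg)
    simp only [bi, Bool.false_eq_true, if_false, zero_sub, abs_neg]
    rw [abs_of_nonneg h4]
    exact h6.trans (hq k)
  · have h6 := maj_large (n := 3 * (k + 1)) h1 (h2 hg)
    simp only [bi, if_true]
    rw [abs_of_nonneg (by linarith)]
    exact h6.trans (hq k)

theorem exists_e {g : (X → Bool) → Bool} {D : ℕ} (h : Apx g D) :
    ∃ e : ℕ → (X → Bool) → ℝ, (∀ k, dg (e k) (3 * (k + 1) * D)) ∧
      (∀ k x, |e k x| ≤ 2 * (1 / 4) ^ k) ∧
      ∀ N x, |bi (g x) - ∑ k ∈ range (N + 1), e k x| ≤ (1 / 4) ^ (N + 1) := by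
  obtain ⟨q, h1, h2, h3⟩ := exists_q h
  refine ⟨fun k x => if k = 0 then q 0 x else q k x - q (k - 1) x, ?_, ?_, ?_⟩
  · intro k
    rcases k with _ | k
    · exact h1 0
    · simp only [Nat.add_eq_zero_iff, one_ne_zero, and_false, if_false, Nat.add_sub_cancel]
      exact (h1 (k + 1)).sub ((h1 k).mono (Nat.mul_le_mul_right D (by omega)))
  · intro k x
    rcases k with _ | k
    · simp only [if_true, pow_zero]
      rw [abs_of_nonneg (h3 0 x).1]
      have := (h3 0 x).2
      linarith
    · simp only [Nat.add_eq_zero_iff, one_ne_zero, and_false, if_false, Nat.add_sub_cancel]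
      have h4 := h2 (k + 1) x
      have h5 := h2 k x
      have e : q (k + 1) x - q k x = (bi (g x) - q k x) - (bi (g x) - q (k + 1) x) := by ring
      rw [e]
      refine (abs_sub _ _).trans ?_
      have h6 : (0 : ℝ) < (1 / 4) ^ (k + 1) := by positivity
      have h7 : ((1 : ℝ) / 4) ^ (k + 1 + 1) = (1 / 4) ^ (k + 1) * (1 / 4) := pow_succ _ _
      rw [h7] at h4
      linarith
  · intro N x
    have e : ∑ k ∈ range (N + 1), (if k = 0 then q 0 x else q k x - q (k - 1) x) = q N x := by
      induction N with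
      | zero => simp
      | succ N ih =>
        rw [sum_range_succ, ih]
        simp
    rw [e]
    exact h2 N x

theorem Apx.not {g : (X → Bool) → Bool} {D : ℕ} (h : Apx g D) : Apx (fun x => !(g x)) D := by
  obtain ⟨P, hP, hP1⟩ := h
  refine ⟨fun x => 1 - P x, (dg_one (V := X) D).sub hP, fun x => ?_⟩
  obtain ⟨h0, h1, h2, h3⟩ := hP1 x
  refine ⟨by linarith, by linarith, fun hx => ?_, fun hx => ?_⟩
  · have := h3 (by simpa using hx)
    linarith
  · have := h2 (by simpa using hx)
    linarith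

theorem geom_half (N : ℕ) : ∑ k ∈ range (N + 1), ((1 : ℝ) / 2) ^ k ≤ 2 := by
  have h : ∀ N : ℕ, ∑ k ∈ range N, ((1 : ℝ) / 2) ^ k = 2 - 2 * (1 / 2) ^ N := by
    intro N
    induction N with
    | zero => simp
    | succ N ih =>
      rw [sum_range_succ, ih, pow_succ]
      ring
  rw [h]
  have : (0 : ℝ) < (1 / 2) ^ (N + 1) := by positivity
  linarith

theorem close_prod {ι : Type} (g : ι → (X → Bool) → Bool) {D : ℕ} (hg : ∀ i, Apx (g i) D)
    (s : Finset ι) : ∀ N : ℕ, ∃ P : (X → Bool) → ℝ, dg P (3 * D * (N + s.card)) ∧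
      ∀ x, |∏ i ∈ s, bi (g i x) - P x| ≤ (4 ^ s.card - 1) / 3 * (1 / 2) ^ (N + 1) := by
  induction s using Finset.induction_on with
  | empty =>
    intro N
    exact ⟨fun _ => 1, dg_one _, fun x => by simp⟩
  | insert i s hi ih =>
    intro N
    choose T hT1 hT2 using ih
    obtain ⟨e, he1, he2, he3⟩ := exists_e (hg i)
    refine ⟨fun x => ∑ k ∈ range (N + 1), e k x * T (N - k) x, ?_, fun x => ?_⟩
    · apply dg_sum
      intro k hk
      have hk1 := mem_range.mp hk
      have h1 := (he1 k).mul (hT1 (N - k))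
      refine h1.mono ?_
      rw [card_insert_of_notMem hi]
      obtain ⟨j, rfl⟩ : ∃ j, N = k + j := ⟨N - k, by omega⟩
      rw [Nat.add_sub_cancel_left]
      apply le_of_eq
      ring
    · rw [prod_insert hi, card_insert_of_notMem hi]
      set Q := ∏ j ∈ s, bi (g j x) with hQ
      have hQ0 : 0 ≤ Q := prod_nonneg fun j _ => bi_nonneg _
      have hQ1 : Q ≤ 1 := prod_le_one (fun j _ => bi_nonneg _) fun j _ => bi_le_one _
      have e1 : bi (g i x) * Q - ∑ k ∈ range (N + 1), e k x * T (N - k) x =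
          (bi (g i x) - ∑ k ∈ range (N + 1), e k x) * Q +
            ∑ k ∈ range (N + 1), e k x * (Q - T (N - k) x) := by
        simp only [mul_sub, sum_sub_distrib, ← sum_mul]
        ring
      rw [e1]
      have ha : (0 : ℝ) ≤ (4 ^ s.card - 1) / 3 := by
        have : (1 : ℝ) ≤ 4 ^ s.card := one_le_pow₀ (by norm_num)
        linarith
      set a : ℝ := (4 ^ s.card - 1) / 3 with haa
      have hN : (0 : ℝ) < (1 / 2) ^ (N + 1) := by positivity
      have b1 : |(bi (g i x) - ∑ k ∈ range (N + 1), e k x) * Q| ≤ (1 / 2) ^ (N + 1) := by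
        rw [abs_mul, abs_of_nonneg hQ0]
        calc |bi (g i x) - ∑ k ∈ range (N + 1), e k x| * Q ≤ (1 / 4) ^ (N + 1) * 1 :=
              mul_le_mul (he3 N x) hQ1 hQ0 (by positivity)
          _ ≤ (1 / 2) ^ (N + 1) := by
              rw [mul_one]
              exact pow_le_pow_left₀ (by norm_num) (by norm_num) _
      have b2 : |∑ k ∈ range (N + 1), e k x * (Q - T (N - k) x)| ≤
          4 * a * (1 / 2) ^ (N + 1) := by
        refine (abs_sum_le_sum_abs _ _).trans ?_
        calc ∑ k ∈ range (N + 1), |e k x * (Q - T (N - k) x)|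
            ≤ ∑ k ∈ range (N + 1), (2 * a * (1 / 2) ^ (N + 1)) * (1 / 2) ^ k := by
              apply sum_le_sum
              intro k hk
              have hk1 := mem_range.mp hk
              rw [abs_mul]
              calc |e k x| * |Q - T (N - k) x| ≤
                  (2 * (1 / 4) ^ k) * (a * (1 / 2) ^ (N - k + 1)) :=
                    mul_le_mul (he2 k x) (hT2 (N - k) x) (abs_nonneg _) (by positivity)
                _ = _ := by
                    have e2 : ((1 : ℝ) / 4) ^ k = (1 / 2) ^ k * (1 / 2) ^ k := by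
                      rw [← mul_pow]
                      norm_num
                    have e3 : ((1 : ℝ) / 2) ^ (N + 1) = (1 / 2) ^ k * (1 / 2) ^ (N - k + 1) := by
                      rw [← pow_add]
                      congr 1
                      omega
                    rw [e2, e3]
                    ring
          _ = (2 * a * (1 / 2) ^ (N + 1)) * ∑ k ∈ range (N + 1), ((1 : ℝ) / 2) ^ k := by
              rw [mul_sum]
          _ ≤ (2 * a * (1 / 2) ^ (N + 1)) * 2 :=
              mul_le_mul_of_nonneg_left (geom_half N) (by positivity)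
          _ = _ := by ring
      refine (abs_add_le _ _).trans ?_
      have e4 : ((4 : ℝ) ^ (s.card + 1) - 1) / 3 = 1 + 4 * a := by
        rw [haa, pow_succ]
        ring
      rw [e4]
      linarith

/-- **Robust composition.** -/
theorem close_comp {ι : Type} [Fintype ι] (g : ι → (X → Bool) → Bool) {D : ℕ}
    (hg : ∀ i, Apx (g i) D) (F : (ι → Bool) → Bool) (t : ℕ) :
    ∃ P : (X → Bool) → ℝ, dg P (3 * D * (4 * Fintype.card ι + t)) ∧
      ∀ x, |bi (F fun i => g i x) - P x| ≤ (1 / 2) ^ t := by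
  set m := Fintype.card ι with hm
  have hneg : ∀ (β : ι → Bool) (i : ι), Apx (fun x => g i x == β i) D := by
    intro β i
    rcases hb : β i with _ | _
    · have e : (fun x => g i x == false) = fun x => !(g i x) := by
        funext x
        cases g i x <;> rfl
      rw [e]
      exact (hg i).not
    · have e : (fun x => g i x == true) = g i := by
        funext x
        cases g i x <;> rfl
      rw [e]
      exact hg i
  have h1 := fun β : ι → Bool => close_prod (fun i x => g i x == β i) (hneg β) univ (3 * m + t)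
  choose P hP1 hP2 using h1
  refine ⟨fun x => ∑ β : ι → Bool, bi (F β) * P β x, ?_, fun x => ?_⟩
  · apply dg_sum
    intro β _
    apply dg_smul
    refine (hP1 β).mono (le_of_eq ?_)
    rw [card_univ, ← hm]
    ring
  · have e1 : bi (F fun i => g i x) = ∑ β : ι → Bool, bi (F β) * ∏ i, bi (g i x == β i) := by
      rw [sum_eq_single (fun i => g i x)]
      · have : ∏ i, bi (g i x == g i x) = 1 := prod_eq_one fun i _ => by simp [bi]
        rw [this, mul_one]
      · intro β _ hβ
        obtain ⟨i, hi⟩ := Function.ne_iff.mp hβ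
        have : ∏ i, bi (g i x == β i) = 0 := by
          apply prod_eq_zero (mem_univ i)
          have h2 : (g i x == β i) = false := by
            rw [beq_eq_false_iff_ne]
            exact Ne.symm hi
          rw [h2]
          simp [bi]
        rw [this, mul_zero]
      · intro h
        exact absurd (mem_univ _) h
    rw [e1, ← sum_sub_distrib]
    refine (abs_sum_le_sum_abs _ _).trans ?_
    calc ∑ β : ι → Bool, |bi (F β) * ∏ i, bi (g i x == β i) - bi (F β) * P β x|
        ≤ ∑ _β : ι → Bool, (4 ^ m - 1) / 3 * (1 / 2) ^ (3 * m + t + 1) := by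
          apply sum_le_sum
          intro β _
          rw [← mul_sub, abs_mul, abs_of_nonneg (bi_nonneg _)]
          have h2 := hP2 β x
          rw [card_univ, ← hm] at h2
          calc bi (F β) * |∏ i, bi (g i x == β i) - P β x| ≤
              1 * |∏ i, bi (g i x == β i) - P β x| :=
                mul_le_mul_of_nonneg_right (bi_le_one _) (abs_nonneg _)
            _ ≤ _ := by rw [one_mul]; exact h2
      _ = 2 ^ m * ((4 ^ m - 1) / 3 * (1 / 2) ^ (3 * m + t + 1)) := by
          rw [sum_const, nsmul_eq_mul, card_univ, Fintype.card_fun, Fintype.card_bool, ← hm]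
          push_cast
          ring
      _ ≤ 2 ^ m * (4 ^ m * (1 / 2) ^ (3 * m + t)) := by
          apply mul_le_mul_of_nonneg_left _ (by positivity)
          apply mul_le_mul
          · have : (1 : ℝ) ≤ 4 ^ m := one_le_pow₀ (by norm_num)
            linarith
          · exact pow_le_pow_of_le_one (by norm_num) (by norm_num) (by omega)
          · positivity
          · positivity
      _ = (1 / 2) ^ t := by
          rw [pow_add, ← mul_assoc, ← mul_assoc, ← mul_pow, pow_mul, ← mul_pow]
          norm_num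

end

end Pool.Agent.T9h82.QL
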