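import Pool.Agent.T9h82.QL.Adv

set_option autoImplicit false
set_option linter.unusedSectionVars false

/-!
# Approximating polynomials of degree `O(√s)` from witness vectors
-/

namespace Pool.Agent.T9h82.QL

open Finset Classical
open Pool.Agent.T9h82.SL (NF)

/-- the reflection which changes the sign on the span of `K` -/
theorem exists_refl {I : Type} [Fintype I] (K : Set (I → ℝ)) :
    ∃ R : (I → ℝ) →ₗ[ℝ] (I → ℝ), (∀ u v, ∑ i, R u i * R v i = ∑ i, u i * v i) ∧
      (∀ ψ ∈ K, R ψ = -ψ) ∧ ∀ u, (∀ ψ ∈ K, ∑ i, u i * ψ i = 0) → R u = u := by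
  set e : EuclideanSpace ℝ I ≃ₗ[ℝ] (I → ℝ) := WithLp.linearEquiv 2 ℝ (I → ℝ) with he
  have hinner : ∀ u v : EuclideanSpace ℝ I, inner ℝ u v = ∑ i, e u i * e v i := by
    intro u v
    rw [PiLp.inner_apply]
    apply sum_congr rfl
    intro i _
    simp [he, mul_comm]
  set K' : Submodule ℝ (EuclideanSpace ℝ I) := Submodule.span ℝ (e.symm '' K) with hK'
  set R : (I → ℝ) →ₗ[ℝ] (I → ℝ) :=
    e.toLinearMap ∘ₗ (-(K'.reflection.toLinearEquiv.toLinearMap)) ∘ₗ e.symm.toLinearMap with hR
  have hRe : ∀ u, R u = e (-(K'.reflection (e.symm u))) := fun u => rfl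
  refine ⟨R, ?_, ?_, ?_⟩
  · intro u v
    have h1 := hinner (-(K'.reflection (e.symm u))) (-(K'.reflection (e.symm v)))
    rw [inner_neg_neg, LinearIsometryEquiv.inner_map_map, hinner] at h1
    simp only [LinearEquiv.apply_symm_apply] at h1
    rw [hRe, hRe, ← h1]
  · intro ψ hψ
    have h1 : e.symm ψ ∈ K' := Submodule.subset_span ⟨ψ, hψ, rfl⟩
    rw [hRe, Submodule.reflection_mem_subspace_eq_self h1, map_neg, LinearEquiv.apply_symm_apply]
  · intro u hu
    have h1 : e.symm u ∈ K'ᗮ := by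
      rw [Submodule.mem_orthogonal]
      intro v hv
      rw [hK'] at hv
      induction hv using Submodule.span_induction with
      | mem v hv =>
        obtain ⟨ψ, hψ, rfl⟩ := hv
        rw [hinner]
        simp only [LinearEquiv.apply_symm_apply]
        rw [← hu ψ hψ]
        exact sum_congr rfl fun i _ => mul_comm _ _
      | zero => exact inner_zero_left _
      | add v w _ _ hv hw => rw [inner_add_left, hv, hw, add_zero]
      | smul c v _ hv => rw [inner_smul_left, hv, mul_zero]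
    rw [hRe, Submodule.reflection_mem_subspace_orthogonalComplement_eq_neg h1, neg_neg,
      LinearEquiv.apply_symm_apply]

section

variable {I : Type} [Fintype I]

/-- one step -/
def stp (R : (I → ℝ) →ₗ[ℝ] (I → ℝ)) (s : I → ℝ) (v : I → ℝ) : I → ℝ := fun i => s i * R v i

def itr (R : (I → ℝ) →ₗ[ℝ] (I → ℝ)) (s : I → ℝ) (v : I → ℝ) : ℕ → (I → ℝ)
  | 0 => v
  | j + 1 => stp R s (itr R s v j)

variable {R : (I → ℝ) →ₗ[ℝ] (I → ℝ)} {s : I → ℝ}

theorem stp_inner (hR : ∀ u v, ∑ i, R u i * R v i = ∑ i, u i * v i) (hs : ∀ i, s i ^ 2 = 1)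
    (u v : I → ℝ) : ∑ i, stp R s u i * stp R s v i = ∑ i, u i * v i := by
  rw [← hR u v]
  apply sum_congr rfl
  intro i _
  unfold stp
  have := hs i
  calc s i * R u i * (s i * R v i) = s i ^ 2 * (R u i * R v i) := by ring
    _ = _ := by rw [this, one_mul]

theorem itr_norm (hR : ∀ u v, ∑ i, R u i * R v i = ∑ i, u i * v i) (hs : ∀ i, s i ^ 2 = 1)
    (v : I → ℝ) (j : ℕ) : ∑ i, itr R s v j i * itr R s v j i = ∑ i, v i * v i := by
  induction j with
  | zero => rfl
  | succ j ih =>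
    simp only [itr]
    rw [stp_inner hR hs, ih]

theorem itr_fixed (hR : ∀ u v, ∑ i, R u i * R v i = ∑ i, u i * v i) (hs : ∀ i, s i ^ 2 = 1)
    {u : I → ℝ} (hu : stp R s u = u) (v : I → ℝ) (j : ℕ) :
    ∑ i, u i * itr R s v j i = ∑ i, u i * v i := by
  induction j with
  | zero => rfl
  | succ j ih =>
    simp only [itr]
    conv_lhs => rw [← hu]
    rw [stp_inner hR hs, ih]

theorem stp_sub (u v : I → ℝ) : stp R s (u - v) = stp R s u - stp R s v := by
  funext i
  unfold stp
  rw [map_sub]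
  simp only [Pi.sub_apply]
  ring

theorem stp_smul (c : ℝ) (v : I → ℝ) : stp R s (c • v) = c • stp R s v := by
  funext i
  unfold stp
  rw [map_smul]
  simp only [Pi.smul_apply, smul_eq_mul]
  ring

theorem itr_tele {c : ℝ} {ψ v : I → ℝ} (h : v = c • (ψ - stp R s ψ)) (j : ℕ) :
    itr R s v j = c • (itr R s ψ j - itr R s ψ (j + 1)) := by
  induction j with
  | zero => exact h
  | succ j ih =>
    show stp R s (itr R s v j) = _
    rw [ih, stp_smul, stp_sub]
    rfl

theorem sum_itr_tele {c : ℝ} {ψ v : I → ℝ} (h : v = c • (ψ - stp R s ψ)) (m : ℕ) (i : I) :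
    ∑ j ∈ range m, itr R s v j i = c * (ψ i - itr R s ψ m i) := by
  induction m with
  | zero => simp [itr]
  | succ m ih =>
    rw [sum_range_succ, ih, itr_tele h]
    simp only [Pi.smul_apply, Pi.sub_apply, smul_eq_mul]
    ring

end

end Pool.Agent.T9h82.QL
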